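import Pool.Agent.U156.LD.Grow

/-!
# Exponential rates of the Li coefficients for large base points
-/

set_option autoImplicit false

open Complex Filter Topology Finset

namespace Pool.Agent.U156.LD

open Pool.Agent.N831.LI (Zs W li finite_supp pow_exp W_neg W_conj W_one_sub cnt2)

noncomputable section

variable {M : ℂ → ℝ}

/-- zeros close to the line give small coefficients -/
theorem rate_up (hM : Zs M) {δ δ' : ℝ} (s : ℝ) (hδ0 : 0 ≤ δ) (hδ : δ ≤ 1 / 2) (hδ' : δ < δ')
    (h : ∀ z, M z ≠ 0 → |z.re| ≤ δ) :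
    ∀ᶠ a : ℝ in atTop, ∀ᶠ n : ℕ in atTop, |li M (a - s) n| ≤ Real.exp (2 * δ' * n / a) := by
  obtain ⟨e, he, hee⟩ : ∃ e : ℝ, δ < e ∧ e < δ' := exists_between hδ'
  -- the quadratic inequality
  have hev : ∀ᶠ a : ℝ in atTop, 1 / 2 + 1 ≤ a - s ∧ 0 < a ∧ δ * (a - s) * a ≤ e * (a - s - δ) ^ 2 := by
    have h1 : ∀ᶠ a : ℝ in atTop, (2 * e * (|s| + 1) + e * (|s| + 1) ^ 2 + δ * |s| + 1) / (e - δ) ≤ a := eventually_ge_atTop _
    filter_upwards [h1, eventually_ge_atTop (|s| + 2), eventually_ge_atTop (1 : ℝ)] with a h2 h3 h4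
    have hed : 0 < e - δ := by linarith
    rw [div_le_iff₀ hed] at h2
    have hs := abs_le.1 (le_refl |s|)
    have hs1 := le_abs_self s
    have hs2 := neg_abs_le s
    refine ⟨by linarith, by linarith, ?_⟩
    have he0 : 0 < e := by linarith
    -- `e (a - s - δ)² ≥ e a² - 2 e a (|s|+1)`
    have h5 : e * (a ^ 2 - 2 * a * (|s| + 1)) ≤ e * (a - s - δ) ^ 2 := by
      apply mul_le_mul_of_nonneg_left _ he0.le
      have h6 : s + δ ≤ |s| + 1 := by linarith
      nlinarith [sq_nonneg (s + δ), mul_nonneg (show (0:ℝ) ≤ a by linarith) (show 0 ≤ |s| + 1 - (s + δ) by linarith)]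
    have h7 : δ * (a - s) * a ≤ δ * a ^ 2 + δ * |s| * a := by
      have : δ * (a - s) * a = δ * a ^ 2 + δ * (-s) * a := by ring
      rw [this]
      have h8 : δ * (-s) * a ≤ δ * |s| * a := by
        have : -s ≤ |s| := neg_le_abs s
        gcongr
      linarith
    have h9 : δ * a ^ 2 + δ * |s| * a ≤ e * (a ^ 2 - 2 * a * (|s| + 1)) := by
      have h10 : (2 * e * (|s| + 1) + e * (|s| + 1) ^ 2 + δ * |s| + 1) * a ≤ a * (e - δ) * a := by gcongr
      have h11 : 0 ≤ (e * (|s| + 1) ^ 2 + 1) * a := by positivity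
      nlinarith
    linarith
  filter_upwards [hev] with a ha
  obtain ⟨h1, h2, h3⟩ := ha
  have hb : 1 / 2 ≤ a - s := by linarith
  have he0 : 0 < e := by linarith
  have hR : (1 : ℝ) ≤ Real.exp (2 * e / a) := Real.one_le_exp (by positivity)
  obtain ⟨C, hC, h4⟩ := upper hM hb hR fun z hz => by
    have h5 := norm_W_sq hb (hM.strip z hz)
    have h6 := h z hz
    have h6' := abs_le.1 h6
    have hpos : 0 < a - s - δ := by linarith
    have h7 : -(4 * (a - s) * z.re / ((z.re + (a - s)) ^ 2 + z.im ^ 2)) ≤ 4 * (a - s) * δ / (a - s - δ) ^ 2 := by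
      rw [← neg_div]
      have hden : (a - s - δ) ^ 2 ≤ (z.re + (a - s)) ^ 2 + z.im ^ 2 := by
        have : a - s - δ ≤ z.re + (a - s) := by linarith [h6'.1]
        nlinarith [sq_nonneg z.im]
      have hnum : -(4 * (a - s) * z.re) ≤ 4 * (a - s) * δ := by nlinarith [h6'.1]
      have hden0 : 0 < (a - s - δ) ^ 2 := by positivity
      rcases le_total 0 (-(4 * (a - s) * z.re)) with h8 | h8
      · exact div_le_div₀ (h8.trans hnum) hnum hden0 hden
      · refine (div_nonpos_of_nonpos_of_nonneg h8 (hden0.le.trans hden)).trans ?_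
        have : 0 < a - s := by linarith
        positivity
    have h8 : 4 * (a - s) * δ / (a - s - δ) ^ 2 ≤ 4 * e / a := by
      rw [div_le_div_iff₀ (by positivity) h2]
      nlinarith
    have h9 : ‖W (a - s) z‖ ^ 2 ≤ Real.exp (2 * e / a) ^ 2 := by
      rw [h5, ← Real.exp_nat_mul]
      have h10 := Real.add_one_le_exp (4 * e / a)
      have h11 : ((2 : ℕ) : ℝ) * (2 * e / a) = 4 * e / a := by push_cast; ring
      rw [h11]
      linarith
    exact (pow_le_pow_iff_left₀ (norm_nonneg _) (Real.exp_pos _).le two_ne_zero).1 h9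
  -- polynomial factors
  have hlim : Tendsto (fun n : ℕ => C * ((n : ℝ) ^ 2 * (Real.exp (-(2 * (δ' - e) / a))) ^ n)) atTop (𝓝 0) := by
    have h5 : Tendsto (fun n : ℕ => (n : ℝ) ^ 2 * (Real.exp (-(2 * (δ' - e) / a))) ^ n) atTop (𝓝 0) :=
      tendsto_pow_const_mul_const_pow_of_abs_lt_one 2 (by
        rw [abs_of_pos (Real.exp_pos _), Real.exp_lt_one_iff]
        have : 0 < 2 * (δ' - e) / a := by
          have : 0 < δ' - e := by linarith
          positivity
        linarith)
    simpa using h5.const_mul C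
  filter_upwards [hlim.eventually (gt_mem_nhds one_pos)] with n hn
  refine (h4 n).trans ?_
  have e1 : Real.exp (2 * e / a) ^ n = Real.exp (-(2 * (δ' - e) / a)) ^ n * Real.exp (2 * δ' * n / a) := by
    rw [← Real.exp_nat_mul, ← Real.exp_nat_mul, ← Real.exp_add]
    congr 1
    field_simp
    ring
  rw [e1]
  have e2 : C * ((n : ℝ) ^ 2 * (Real.exp (-(2 * (δ' - e) / a)) ^ n * Real.exp (2 * δ' * n / a))) =
      (C * ((n : ℝ) ^ 2 * Real.exp (-(2 * (δ' - e) / a)) ^ n)) * Real.exp (2 * δ' * n / a) := by ring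
  rw [e2]
  exact mul_le_of_le_one_left (Real.exp_pos _).le (le_of_lt hn)

/-- a lower bound for the coefficients on long blocks gives a bound for the zeros -/
theorem rate_low (hM : Zs M) {δ : ℝ} (s : ℝ) (hδ : 0 ≤ δ)
    (h : ∃ᶠ a : ℝ in atTop, Blocks (fun n => -Real.exp (2 * δ * n / a) ≤ li M (a - s) n)) :
    ∀ z, M z ≠ 0 → |z.re| ≤ δ := by
  -- it suffices to consider `re z < 0`
  suffices hmain : ∀ z, M z ≠ 0 → z.re < 0 → -z.re ≤ δ by
    intro z hz
    rcases lt_trichotomy z.re 0 with h1 | h1 | h1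
    · rw [abs_of_neg h1]
      exact hmain z hz h1
    · rw [h1, abs_zero]
      exact hδ
    · rw [abs_of_pos h1]
      have := hmain (-z) (by rwa [hM.neg]) (by simpa using h1)
      simpa using this
  intro z hz hre
  by_contra hcon
  push Not at hcon
  obtain ⟨x, hx⟩ : ∃ x : ℝ, x = -z.re := ⟨_, rfl⟩
  rw [← hx] at hcon
  have hx0 : 0 < x := by linarith
  have hxs := abs_lt.1 (hM.strip z hz)
  have hx1 : x < 1 / 2 := by linarith [hxs.1]
  -- for all large `a` the inequality fails
  have hlim1 : Tendsto (fun a : ℝ => a * (4 * (a - s) * x / ((a - s - x) ^ 2 + z.im ^ 2))) atTop (𝓝 (4 * x)) := by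
    have e : ∀ᶠ a : ℝ in atTop, 4 * x * ((1 - s / a) / ((1 - (s + x) / a) ^ 2 + z.im ^ 2 / a / a)) =
        a * (4 * (a - s) * x / ((a - s - x) ^ 2 + z.im ^ 2)) := by
      filter_upwards [eventually_gt_atTop (|s| + |x| + 1)] with a ha
      have h1 := le_abs_self s
      have h2 := le_abs_self x
      have h3 := abs_nonneg s
      have h4 := abs_nonneg x
      have ha0 : 0 < a := by linarith
      have h5 : 0 < a - s - x := by linarith
      have h6 : 0 < (a - s - x) ^ 2 + z.im ^ 2 := by positivity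
      have h7 : (1 - (s + x) / a) ^ 2 + z.im ^ 2 / a / a = ((a - s - x) ^ 2 + z.im ^ 2) / a ^ 2 := by
        field_simp
        ring
      rw [h7]
      field_simp
    refine Tendsto.congr' e ?_
    have t1 : Tendsto (fun a : ℝ => s / a) atTop (𝓝 0) := tendsto_const_nhds.div_atTop tendsto_id
    have t2 : Tendsto (fun a : ℝ => (s + x) / a) atTop (𝓝 0) := tendsto_const_nhds.div_atTop tendsto_id
    have t3 : Tendsto (fun a : ℝ => z.im ^ 2 / a) atTop (𝓝 0) := tendsto_const_nhds.div_atTop tendsto_id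
    have t4 : Tendsto (fun a : ℝ => z.im ^ 2 / a / a) atTop (𝓝 0) := t3.div_atTop tendsto_id
    have t5 : Tendsto (fun a : ℝ => (1 - (s + x) / a) ^ 2 + z.im ^ 2 / a / a) atTop (𝓝 ((1 - 0) ^ 2 + 0)) :=
      ((t2.const_sub 1).pow 2).add t4
    have t6 := ((t1.const_sub 1).div t5 (by norm_num)).const_mul (4 * x)
    simpa using t6
  have hlim2 : Tendsto (fun a : ℝ => a * (4 * δ / a + 4 * (4 * δ / a) ^ 2)) atTop (𝓝 (4 * δ)) := by
    have e : ∀ᶠ a : ℝ in atTop, 4 * δ + 64 * δ ^ 2 / a = a * (4 * δ / a + 4 * (4 * δ / a) ^ 2) := by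
      filter_upwards [eventually_gt_atTop (0 : ℝ)] with a ha
      field_simp
      ring
    refine Tendsto.congr' e ?_
    have t1 : Tendsto (fun a : ℝ => 64 * δ ^ 2 / a) atTop (𝓝 0) := tendsto_const_nhds.div_atTop tendsto_id
    simpa using t1.const_add (4 * δ)
  have hlt : ∀ᶠ a : ℝ in atTop, a * (4 * δ / a + 4 * (4 * δ / a) ^ 2) <
      a * (4 * (a - s) * x / ((a - s - x) ^ 2 + z.im ^ 2)) :=
    hlim2.eventually_lt hlim1 (by linarith)
  have hall : ∀ᶠ a : ℝ in atTop, ¬ Blocks (fun n => -Real.exp (2 * δ * n / a) ≤ li M (a - s) n) := by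
    filter_upwards [hlt, eventually_ge_atTop (|s| + 1), eventually_ge_atTop (4 * δ), eventually_gt_atTop (0 : ℝ)]
      with a h1 h2 h3 ha0 h4
    have hs1 := le_abs_self s
    have hb : 1 / 2 ≤ a - s := by linarith
    have h5 := norm_le_of_blocks hM hb (r := Real.exp (2 * δ / a)) (Real.one_le_exp (by positivity)) (by
      have e : (fun n : ℕ => -(Real.exp (2 * δ / a) ^ n) ≤ li M (a - s) n) =
          fun n : ℕ => -Real.exp (2 * δ * n / a) ≤ li M (a - s) n := by
        funext n
        rw [← Real.exp_nat_mul]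
        congr 3
        ring
      rw [e]
      exact h4) hz
    have h6 := norm_W_sq hb (hM.strip z hz)
    have h7 : ‖W (a - s) z‖ ^ 2 ≤ Real.exp (4 * δ / a) := by
      have := pow_le_pow_left₀ (norm_nonneg _) h5 2
      rw [← Real.exp_nat_mul] at this
      refine this.trans (le_of_eq ?_)
      congr 1
      push_cast
      ring
    have h8 : Real.exp (4 * δ / a) ≤ 1 + (4 * δ / a + 4 * (4 * δ / a) ^ 2) := by
      have h9 : |4 * δ / a| ≤ 1 := by
        rw [abs_of_nonneg (by positivity), div_le_one ha0]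
        linarith
      have h10 := Real.abs_exp_sub_one_sub_id_le h9
      have h11 := (abs_le.1 h10).2
      nlinarith [sq_nonneg (4 * δ / a)]
    have h12 : (z.re + (a - s)) ^ 2 = (a - s - x) ^ 2 := by rw [hx]; ring
    rw [h12] at h6
    have h13 : 4 * (a - s) * z.re = -(4 * (a - s) * x) := by rw [hx]; ring
    rw [h13, neg_div] at h6
    have h14 : 4 * (a - s) * x / ((a - s - x) ^ 2 + z.im ^ 2) ≤ 4 * δ / a + 4 * (4 * δ / a) ^ 2 := by linarith
    have h15 := mul_le_mul_of_nonneg_left h14 ha0.le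
    linarith
  exact h (hall.mono fun a ha => ha)

end

end Pool.Agent.U156.LD
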