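import Pool.Agent.U156.LD.Main

/-!
# Growth of the Li coefficients with a fixed base point
-/

set_option autoImplicit false

open Complex Filter Topology Finset

namespace Pool.Agent.U156.LD

open Pool.Agent.N831.LI (Zs W li finite_supp pow_exp W_neg W_conj W_one_sub cnt2)

noncomputable section

variable {M : ℂ → ℝ}

lemma Dense.mono {P Q : ℕ → Prop} (h : Dense P) (hPQ : ∀ n, P n → Q n) : Dense Q := by
  obtain ⟨c, hc, n0, L0, h1⟩ := h
  refine ⟨c, hc, n0, L0, fun n L hn hL => (h1 n L hn hL).trans ?_⟩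
  have hfin : {k : ℕ | n < k ∧ k ≤ n + L ∧ Q k}.Finite :=
    (Set.finite_Iic (n + L)).subset fun k hk => hk.2.1
  have := Set.ncard_le_ncard (s := {k : ℕ | n < k ∧ k ≤ n + L ∧ P k}) (t := {k : ℕ | n < k ∧ k ≤ n + L ∧ Q k})
    (fun k hk => ⟨hk.1, hk.2.1, hPQ k hk.2.2⟩) hfin
  exact_mod_cast this

/-- **Growth.** Both signs with the size given by any zero on the left of the line. -/
theorem grow (hM : Zs M) {b : ℝ} (hb : 1 / 2 ≤ b) {z1 : ℂ} (h1 : M z1 ≠ 0) (h1r : z1.re < 0) :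
    ∃ c : ℝ, 0 < c ∧ Dense (fun n => c * ‖W b z1‖ ^ n ≤ li M b n) ∧
      Dense (fun n => li M b n ≤ -(c * ‖W b z1‖ ^ n)) := by
  obtain ⟨R, E, hR, hne, hE, hmax⟩ := extreme hM hb h1 h1r.ne
  have hR0 : 0 < R := by linarith
  have hRc : (R : ℂ) ≠ 0 := by exact_mod_cast hR0.ne'
  obtain ⟨c, hc, h2, h3⟩ := osc E hne M (fun z hz => hM.one z ((hE z).1 hz).1) (fun z => W b z / (R : ℂ))
    (fun z hz => by
      rw [norm_div, ((hE z).1 hz).2, Complex.norm_real, Real.norm_eq_abs, abs_of_pos hR0, div_self hR0.ne'])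
    (fun z hz h => by
      -- `W z = R` is impossible
      have hz' := (hE z).1 hz
      have hs := hM.strip z hz'.1
      rw [div_eq_one_iff_eq hRc] at h
      have hs' := abs_lt.1 hs
      unfold W at h
      rw [div_eq_iff (add_ne' hb hs)] at h
      have e1 := congrArg Complex.re h
      have e2 := congrArg Complex.im h
      simp only [Complex.sub_re, Complex.ofReal_re, Complex.mul_re, Complex.add_re, Complex.ofReal_im, Complex.add_im,
        zero_mul, sub_zero] at e1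
      simp only [Complex.sub_im, Complex.ofReal_re, Complex.mul_im, Complex.add_re, Complex.ofReal_im, Complex.add_im,
        zero_mul, sub_zero, add_zero] at e2
      have e3 : (R - 1) * z.im = 0 := by linarith
      have e4 : z.im = 0 := by
        rcases mul_eq_zero.1 e3 with h4 | h4
        · linarith
        · exact h4
      nlinarith)
    (fun z hz z' hz' h => by
      have h4 : W b z = W b z' := by
        have := congrArg (fun x => x * (R : ℂ)) h
        simpa [div_mul_cancel₀ _ hRc] using this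
      exact W_inj hb (hM.strip z ((hE z).1 hz).1) (hM.strip z' ((hE z').1 hz').1) h4)
    (fun n => FE_im hM hE n)
  have ht := li_osc hM hb hR hE hmax
  have hev : ∀ᶠ n : ℕ in atTop, |(li M b n + R ^ n * (FE M b R E n).re) / R ^ n| < c / 2 := by
    have := ht.abs
    rw [abs_zero] at this
    exact this.eventually (gt_mem_nhds (by linarith))
  have hpow : ∀ n : ℕ, ‖W b z1‖ ^ n ≤ R ^ n := fun n => pow_le_pow_left₀ (norm_nonneg _) (hmax z1 h1) n
  refine ⟨c / 2, by linarith, ?_, ?_⟩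
  · refine h2 _ ?_
    filter_upwards [hev] with n hn h5
    have hRn : 0 < R ^ n := by positivity
    rw [abs_div, abs_of_pos hRn, div_lt_iff₀ hRn] at hn
    have h6 := (abs_lt.1 hn).1
    have h7 : (FE M b R E n).re < -c := h5
    have h8 : R ^ n * (FE M b R E n).re < R ^ n * -c := mul_lt_mul_of_pos_left h7 hRn
    have h9 : c / 2 * ‖W b z1‖ ^ n ≤ c / 2 * R ^ n := mul_le_mul_of_nonneg_left (hpow n) (by linarith)
    show c / 2 * ‖W b z1‖ ^ n ≤ li M b n
    linarith
  · refine h3 _ ?_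
    filter_upwards [hev] with n hn h5
    have hRn : 0 < R ^ n := by positivity
    rw [abs_div, abs_of_pos hRn, div_lt_iff₀ hRn] at hn
    have h6 := (abs_lt.1 hn).2
    have h7 : c < (FE M b R E n).re := h5
    have h8 : R ^ n * c < R ^ n * (FE M b R E n).re := mul_lt_mul_of_pos_left h7 hRn
    have h9 : c / 2 * ‖W b z1‖ ^ n ≤ c / 2 * R ^ n := mul_le_mul_of_nonneg_left (hpow n) (by linarith)
    show li M b n ≤ -(c / 2 * ‖W b z1‖ ^ n)
    linarith

/-- the upper bound -/
theorem upper (hM : Zs M) {b : ℝ} (hb : 1 / 2 ≤ b) {R : ℝ} (hR : 1 ≤ R) (h : ∀ z, M z ≠ 0 → ‖W b z‖ ≤ R) :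
    ∃ C : ℝ, 0 ≤ C ∧ ∀ n : ℕ, |li M b n| ≤ C * (n ^ 2 * R ^ n) := by
  obtain ⟨C, hC, h1⟩ := li_near hM hb
  obtain ⟨C2, hC2, h2⟩ := cnt2 hM
  have hb0 : 0 < b := by linarith
  refine ⟨C * Real.exp (2 * b) + 8 * C2, by positivity, fun n => ?_⟩
  rcases Nat.eq_zero_or_pos n with h0 | h0
  · subst h0
    have : li M b 0 = 0 := by
      unfold li
      simp
    rw [this, abs_zero]
    simp
  have hn1 : (1 : ℝ) ≤ n := by exact_mod_cast h0
  have h3 := h1 n n hn1
  have h4 : (1 + 2 * b / (n : ℝ)) ^ n ≤ Real.exp (2 * b) := by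
    have h5 := Real.add_one_le_exp (2 * b / (n : ℝ))
    calc (1 + 2 * b / (n : ℝ)) ^ n ≤ (Real.exp (2 * b / n)) ^ n := by
          apply pow_le_pow_left₀ (by positivity)
          linarith
      _ = Real.exp (2 * b) := by
          rw [← Real.exp_nat_mul]
          congr 1
          field_simp
  have hRn : 1 ≤ R ^ n := one_le_pow₀ hR
  have h5 : |∑ z ∈ near hM n, M z * (1 - (W b z ^ n).re)| ≤ 8 * C2 * (n ^ 2 * R ^ n) := by
    calc |∑ z ∈ near hM n, M z * (1 - (W b z ^ n).re)| ≤ ∑ z ∈ near hM n, |M z * (1 - (W b z ^ n).re)| :=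
          Finset.abs_sum_le_sum_abs _ _
      _ ≤ ∑ z ∈ near hM n, (2 * R ^ n * (4 * n ^ 2)) * (M z / (1 + |z.im|) ^ 2) := by
          refine Finset.sum_le_sum fun z hz => ?_
          rw [mem_near] at hz
          have h6 : |1 - (W b z ^ n).re| ≤ 2 * R ^ n := by
            refine (abs_sub _ _).trans ?_
            rw [abs_one]
            have h5 := Complex.abs_re_le_norm (W b z ^ n)
            rw [norm_pow] at h5
            have h6 : ‖W b z‖ ^ n ≤ R ^ n := pow_le_pow_left₀ (norm_nonneg _) (h z hz.1) n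
            linarith
          have h7 : (1 + |z.im|) ^ 2 ≤ 4 * (n : ℝ) ^ 2 := by
            have h8 : 1 + |z.im| ≤ 2 * n := by linarith [hz.2]
            calc (1 + |z.im|) ^ 2 ≤ (2 * (n : ℝ)) ^ 2 := by gcongr
              _ = _ := by ring
          rw [abs_mul, abs_of_nonneg (hM.nn z)]
          have h9 : M z = (1 + |z.im|) ^ 2 * (M z / (1 + |z.im|) ^ 2) := by field_simp
          have h10 : 0 ≤ M z / (1 + |z.im|) ^ 2 := div_nonneg (hM.nn z) (by positivity)
          calc M z * |1 - (W b z ^ n).re| ≤ M z * (2 * R ^ n) := mul_le_mul_of_nonneg_left h6 (hM.nn z)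
            _ = (2 * R ^ n) * ((1 + |z.im|) ^ 2 * (M z / (1 + |z.im|) ^ 2)) := by rw [← h9]; ring
            _ ≤ (2 * R ^ n) * ((4 * n ^ 2) * (M z / (1 + |z.im|) ^ 2)) := by gcongr
            _ = _ := by ring
      _ = (2 * R ^ n * (4 * n ^ 2)) * ∑ z ∈ near hM n, M z / (1 + |z.im|) ^ 2 := by rw [Finset.mul_sum]
      _ ≤ (2 * R ^ n * (4 * n ^ 2)) * C2 := by
          have := h2 (near hM n)
          gcongr
      _ = _ := by ring
  have h6 : C * ((n : ℝ) ^ 2 * (1 + 2 * b / n) ^ n) ≤ C * Real.exp (2 * b) * (n ^ 2 * R ^ n) := by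
    calc C * ((n : ℝ) ^ 2 * (1 + 2 * b / n) ^ n) ≤ C * ((n : ℝ) ^ 2 * Real.exp (2 * b)) := by gcongr
      _ = C * Real.exp (2 * b) * (n ^ 2 * 1) := by ring
      _ ≤ _ := by gcongr
  have h7 : li M b n = (li M b n - ∑ z ∈ near hM n, M z * (1 - (W b z ^ n).re)) +
      ∑ z ∈ near hM n, M z * (1 - (W b z ^ n).re) := by ring
  rw [h7]
  refine (abs_add_le _ _).trans ?_
  linarith

/-- `P` holds on arbitrarily long blocks of consecutive numbers, arbitrarily far out. -/
def Blocks (P : ℕ → Prop) : Prop := ∀ L n₀ : ℕ, ∃ n : ℕ, n₀ ≤ n ∧ ∀ k, n < k → k ≤ n + L → P k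

lemma Blocks.of_eventually {P : ℕ → Prop} (h : ∀ᶠ n in atTop, P n) : Blocks P := by
  obtain ⟨N, hN⟩ := eventually_atTop.1 h
  exact fun L n0 => ⟨max N n0, le_max_right _ _, fun k hk _ => hN k ((le_max_left _ _).trans hk.le)⟩

lemma Blocks.not_dense {P Q : ℕ → Prop} (h : Blocks P) (hPQ : ∀ᶠ n in atTop, P n → ¬ Q n) : ¬ Dense Q := by
  obtain ⟨N, hN⟩ := eventually_atTop.1 hPQ
  refine not_dense_of fun L n0 => ?_
  obtain ⟨n, hn, h1⟩ := h L (max N n0)
  exact ⟨n, (le_max_right _ _).trans hn, fun k hk hkL =>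
    hN k (((le_max_left _ _).trans hn).trans hk.le) (h1 k hk hkL)⟩

/-- a lower bound on long blocks bounds the zeros -/
theorem norm_le_of_blocks (hM : Zs M) {b : ℝ} (hb : 1 / 2 ≤ b) {r : ℝ} (hr : 1 ≤ r)
    (h : Blocks (fun n => -(r ^ n) ≤ li M b n)) {z : ℂ} (hz : M z ≠ 0) : ‖W b z‖ ≤ r := by
  by_contra hcon
  push Not at hcon
  have hre : z.re < 0 := by
    by_contra h2
    push Not at h2
    have h3 := norm_W_sq hb (hM.strip z hz)
    have h4 : 0 ≤ 4 * b * z.re / ((z.re + b) ^ 2 + z.im ^ 2) := by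
      have hb0 : 0 < b := by linarith
      positivity
    have h5 : ‖W b z‖ ^ 2 ≤ 1 := by linarith
    have h6 : ‖W b z‖ ≤ 1 := by
      by_contra h7
      push Not at h7
      nlinarith
    linarith
  obtain ⟨c, hc, -, h2⟩ := grow hM hb hz hre
  refine h.not_dense ?_ h2
  have hr0 : 0 < r := by linarith
  have hq : 1 < ‖W b z‖ / r := by rw [lt_div_iff₀ hr0]; linarith
  have h3 := tendsto_pow_atTop_atTop_of_one_lt hq
  filter_upwards [h3.eventually_gt_atTop (1 / c)] with n hn h4 h5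
  rw [div_pow, lt_div_iff₀ (by positivity), div_mul_eq_mul_div, one_mul, div_lt_iff₀ hc] at hn
  linarith

end

end Pool.Agent.U156.LD
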