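import Pool.Agent.U156.LD.Sign

/-!
# Signs and growth of the Li coefficients with a fixed base point: the theorems
-/

set_option autoImplicit false

open Complex Filter Topology Finset

namespace Pool.Agent.U156.LD

open Pool.Agent.N831.LI (Zs W li finite_supp pow_exp W_neg W_conj W_one_sub cnt2)

noncomputable section

variable {M : ℂ → ℝ}

/-- the exponential sum of the extreme zeros -/
def FE (M : ℂ → ℝ) (b R : ℝ) (E : Finset ℂ) (n : ℕ) : ℂ := ∑ z ∈ E, (M z : ℂ) * (W b z / (R : ℂ)) ^ n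

lemma FE_im (hM : Zs M) {b R : ℝ} {E : Finset ℂ} (hE : ∀ z, z ∈ E ↔ M z ≠ 0 ∧ ‖W b z‖ = R) (n : ℕ) :
    (FE M b R E n).im = 0 := by
  have h : (starRingEnd ℂ) (FE M b R E n) = FE M b R E n := by
    unfold FE
    rw [map_sum]
    refine Finset.sum_bij' (fun z _ => (starRingEnd ℂ) z) (fun z _ => (starRingEnd ℂ) z) ?_ ?_ ?_ ?_ ?_
    · intro z hz
      rw [hE] at hz ⊢
      rw [hM.conj, W_conj, Complex.norm_conj]
      exact hz
    · intro z hz
      rw [hE] at hz ⊢
      rw [hM.conj, W_conj, Complex.norm_conj]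
      exact hz
    · intro z _
      exact Complex.conj_conj z
    · intro z _
      exact Complex.conj_conj z
    · intro z _
      rw [map_mul, map_pow, map_div₀, Complex.conj_ofReal, Complex.conj_ofReal, hM.conj, W_conj]
  exact Complex.conj_eq_iff_im.1 h

/-- the coefficient and the exponential sum -/
theorem li_osc (hM : Zs M) {b : ℝ} (hb : 1 / 2 ≤ b) {R : ℝ} {E : Finset ℂ} (hR : 1 < R)
    (hE : ∀ z, z ∈ E ↔ M z ≠ 0 ∧ ‖W b z‖ = R) (hmax : ∀ z, M z ≠ 0 → ‖W b z‖ ≤ R) :
    Tendsto (fun n : ℕ => (li M b n + R ^ n * (FE M b R E n).re) / R ^ n) atTop (𝓝 0) := by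
  classical
  have hb0 : 0 < b := by linarith
  have hR0 : 0 < R := by linarith
  have hlR : 0 < Real.log R := Real.log_pos hR
  obtain ⟨C, hC, hli⟩ := li_near hM hb
  obtain ⟨Y, hY⟩ : ∃ Y : ℝ, Y = max 1 (4 * b / Real.log R) + ∑ z ∈ E, |z.im| := ⟨_, rfl⟩
  have hsum0 : 0 ≤ ∑ z ∈ E, |z.im| := Finset.sum_nonneg fun _ _ => abs_nonneg _
  have hY1 : 1 ≤ Y := by rw [hY]; linarith [le_max_left 1 (4 * b / Real.log R)]
  have hY2 : 4 * b / Real.log R ≤ Y := by rw [hY]; linarith [le_max_right 1 (4 * b / Real.log R)]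
  have hEY : E ⊆ near hM Y := by
    intro z hz
    rw [mem_near]
    refine ⟨((hE z).1 hz).1, ?_⟩
    have h1 : |z.im| ≤ ∑ z ∈ E, |z.im| := Finset.single_le_sum (f := fun z : ℂ => |z.im|) (fun _ _ => abs_nonneg _) hz
    rw [hY]
    linarith [le_max_left 1 (4 * b / Real.log R)]
  obtain ⟨q, hq⟩ : ∃ q : ℝ, q = Real.exp (Real.log R / 2) := ⟨_, rfl⟩
  have hq0 : 0 < q := by rw [hq]; exact Real.exp_pos _
  have hqR : q < R := by
    rw [hq, ← Real.lt_log_iff_exp_lt hR0]
    linarith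
  have hqY : 1 + 2 * b / Y ≤ q := by
    have h1 : 2 * b / Y ≤ Real.log R / 2 := by
      rw [div_le_iff₀ (by linarith)]
      rw [div_le_iff₀ hlR] at hY2
      linarith
    have h2 := Real.add_one_le_exp (Real.log R / 2)
    rw [hq]
    linarith
  -- the second largest
  obtain ⟨R1, hR1, hR1R, hR1z⟩ : ∃ R1 : ℝ, 1 ≤ R1 ∧ R1 < R ∧ ∀ z ∈ near hM Y \ E, ‖W b z‖ ≤ R1 := by
    refine ⟨(insert 1 ((near hM Y \ E).image fun z => ‖W b z‖)).max' (Finset.insert_nonempty _ _),
      Finset.le_max' _ _ (Finset.mem_insert_self _ _), ?_, fun z hz => Finset.le_max' _ _ (Finset.mem_insert_of_mem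
        (Finset.mem_image_of_mem (fun z => ‖W b z‖) hz))⟩
    rw [Finset.max'_lt_iff]
    intro x hx
    rw [Finset.mem_insert, Finset.mem_image] at hx
    rcases hx with rfl | ⟨z, hz, rfl⟩
    · exact hR
    · rw [Finset.mem_sdiff, mem_near] at hz
      refine lt_of_le_of_ne (hmax z hz.1.1) fun h => hz.2 ((hE z).2 ⟨hz.1.1, h⟩)
  obtain ⟨A, hA⟩ : ∃ A : ℝ, A = ∑ z ∈ near hM Y, M z := ⟨_, rfl⟩
  have hA0 : 0 ≤ A := by rw [hA]; exact Finset.sum_nonneg fun z _ => hM.nn z
  have key : ∀ n : ℕ, |li M b n + R ^ n * (FE M b R E n).re| ≤ A * (2 + R1 ^ n) + C * (n ^ 2 * q ^ n) := by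
    intro n
    have h1 := hli Y n hY1
    have h2 : C * ((n : ℝ) ^ 2 * (1 + 2 * b / Y) ^ n) ≤ C * (n ^ 2 * q ^ n) := by
      have : 0 ≤ 1 + 2 * b / Y := by positivity
      gcongr
    have h3 : ∑ z ∈ E, M z * (1 - (W b z ^ n).re) = ∑ z ∈ E, M z - R ^ n * (FE M b R E n).re := by
      have e1 : R ^ n * (FE M b R E n).re = ∑ z ∈ E, M z * (W b z ^ n).re := by
        rw [← Complex.re_ofReal_mul]
        unfold FE
        rw [Finset.mul_sum, Complex.re_sum]
        refine Finset.sum_congr rfl fun z _ => ?_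
        have hRc : (R : ℂ) ≠ 0 := by exact_mod_cast hR0.ne'
        have e2 : ((R ^ n : ℝ) : ℂ) * ((M z : ℂ) * (W b z / (R : ℂ)) ^ n) = (M z : ℂ) * W b z ^ n := by
          rw [div_pow]
          push_cast
          field_simp
        rw [e2, Complex.re_ofReal_mul]
      rw [e1, ← Finset.sum_sub_distrib]
      refine Finset.sum_congr rfl fun z _ => ?_
      ring
    have h4 : |∑ z ∈ near hM Y \ E, M z * (1 - (W b z ^ n).re)| ≤ A * (1 + R1 ^ n) := by
      calc |∑ z ∈ near hM Y \ E, M z * (1 - (W b z ^ n).re)| ≤ ∑ z ∈ near hM Y \ E, |M z * (1 - (W b z ^ n).re)| :=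
            Finset.abs_sum_le_sum_abs _ _
        _ ≤ ∑ z ∈ near hM Y \ E, M z * (1 + R1 ^ n) := by
            refine Finset.sum_le_sum fun z hz => ?_
            rw [abs_mul, abs_of_nonneg (hM.nn z)]
            apply mul_le_mul_of_nonneg_left _ (hM.nn z)
            refine (abs_sub _ _).trans ?_
            rw [abs_one]
            have h5 := Complex.abs_re_le_norm (W b z ^ n)
            rw [norm_pow] at h5
            have h6 : ‖W b z‖ ^ n ≤ R1 ^ n := pow_le_pow_left₀ (norm_nonneg _) (hR1z z hz) n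
            linarith
        _ = (∑ z ∈ near hM Y \ E, M z) * (1 + R1 ^ n) := by rw [Finset.sum_mul]
        _ ≤ A * (1 + R1 ^ n) := by
            have h7 : ∑ z ∈ near hM Y \ E, M z ≤ A := by
              rw [hA]
              exact Finset.sum_le_sum_of_subset_of_nonneg Finset.sdiff_subset fun z _ _ => hM.nn z
            have h8 : 0 ≤ 1 + R1 ^ n := by positivity
            gcongr
    have h5 : |∑ z ∈ E, M z| ≤ A := by
      rw [abs_of_nonneg (Finset.sum_nonneg fun z _ => hM.nn z), hA]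
      exact Finset.sum_le_sum_of_subset_of_nonneg hEY fun z _ _ => hM.nn z
    have h6 : li M b n + R ^ n * (FE M b R E n).re = (li M b n - ∑ z ∈ near hM Y, M z * (1 - (W b z ^ n).re)) +
        (∑ z ∈ near hM Y \ E, M z * (1 - (W b z ^ n).re) + ∑ z ∈ E, M z) := by
      rw [← Finset.sum_sdiff hEY, h3]
      ring
    rw [h6]
    refine (abs_add_le _ _).trans ?_
    have h7 := abs_add_le (∑ z ∈ near hM Y \ E, M z * (1 - (W b z ^ n).re)) (∑ z ∈ E, M z)
    linarith [h1.trans h2]
  -- the limit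
  have t1 : Tendsto (fun n : ℕ => (1 / R) ^ n) atTop (𝓝 0) :=
    tendsto_pow_atTop_nhds_zero_of_lt_one (by positivity) (by rw [div_lt_one hR0]; exact hR)
  have t2 : Tendsto (fun n : ℕ => (R1 / R) ^ n) atTop (𝓝 0) :=
    tendsto_pow_atTop_nhds_zero_of_lt_one (by positivity) (by rw [div_lt_one hR0]; exact hR1R)
  have t3 : Tendsto (fun n : ℕ => (n : ℝ) ^ 2 * (q / R) ^ n) atTop (𝓝 0) :=
    tendsto_pow_const_mul_const_pow_of_abs_lt_one 2 (by
      rw [abs_of_pos (by positivity), div_lt_one hR0]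
      exact hqR)
  have t4 : Tendsto (fun n : ℕ => A * (2 * (1 / R) ^ n + (R1 / R) ^ n) + C * ((n : ℝ) ^ 2 * (q / R) ^ n)) atTop (𝓝 0) := by
    have := (((t1.const_mul 2).add t2).const_mul A).add (t3.const_mul C)
    simpa using this
  rw [tendsto_zero_iff_abs_tendsto_zero]
  refine squeeze_zero (fun n => abs_nonneg _) (fun n => ?_) t4
  show |(li M b n + R ^ n * (FE M b R E n).re) / R ^ n| ≤ _
  have hRn : 0 < R ^ n := by positivity
  rw [abs_div, abs_of_pos hRn, div_le_iff₀ hRn]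
  refine (key n).trans (le_of_eq ?_)
  rw [div_pow, div_pow, div_pow, one_pow]
  field_simp

/-- **Zeros off the line.** Both signs occur with positive lower density. -/
theorem off_line (hM : Zs M) {b : ℝ} (hb : 1 / 2 ≤ b) {z1 : ℂ} (h1 : M z1 ≠ 0) (h1r : z1.re ≠ 0) :
    Dense (fun n => 0 < li M b n) ∧ Dense (fun n => li M b n < 0) := by
  obtain ⟨R, E, hR, hne, hE, hmax⟩ := extreme hM hb h1 h1r
  have hR0 : 0 < R := by linarith
  have hRc : (R : ℂ) ≠ 0 := by exact_mod_cast hR0.ne'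
  obtain ⟨c, hc, h2, h3⟩ := osc E hne M (fun z hz => hM.one z ((hE z).1 hz).1) (fun z => W b z / (R : ℂ))
    (fun z hz => by
      rw [norm_div, ((hE z).1 hz).2, Complex.norm_real, Real.norm_eq_abs, abs_of_pos hR0, div_self hR0.ne'])
    (fun z hz h => by
      -- `W z = R` is impossible
      have hz' := (hE z).1 hz
      have hs := hM.strip z hz'.1
      rw [div_eq_one_iff_eq hRc] at h
      have hs' := abs_lt.1 hs
      unfold W at h
      rw [div_eq_iff (add_ne' hb hs)] at h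
      have e1 := congrArg Complex.re h
      have e2 := congrArg Complex.im h
      simp only [Complex.sub_re, Complex.ofReal_re, Complex.mul_re, Complex.add_re, Complex.ofReal_im, Complex.add_im,
        zero_mul, sub_zero] at e1
      simp only [Complex.sub_im, Complex.ofReal_re, Complex.mul_im, Complex.add_re, Complex.ofReal_im, Complex.add_im,
        zero_mul, sub_zero, add_zero] at e2
      have e3 : (R - 1) * z.im = 0 := by linarith
      have e4 : z.im = 0 := by
        rcases mul_eq_zero.1 e3 with h4 | h4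
        · linarith
        · exact h4
      nlinarith)
    (fun z hz z' hz' h => by
      have h4 : W b z = W b z' := by
        have := congrArg (fun x => x * (R : ℂ)) h
        simpa [div_mul_cancel₀ _ hRc] using this
      exact W_inj hb (hM.strip z ((hE z).1 hz).1) (hM.strip z' ((hE z').1 hz').1) h4)
    (fun n => FE_im hM hE n)
  have ht := li_osc hM hb hR hE hmax
  have hev : ∀ᶠ n : ℕ in atTop, |(li M b n + R ^ n * (FE M b R E n).re) / R ^ n| < c := by
    have := ht.abs
    rw [abs_zero] at this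
    exact this.eventually (gt_mem_nhds hc)
  constructor
  · refine h2 _ ?_
    filter_upwards [hev] with n hn h5
    have hRn : 0 < R ^ n := by positivity
    rw [abs_div, abs_of_pos hRn, div_lt_iff₀ hRn] at hn
    have h6 := (abs_lt.1 hn).1
    have h7 : (FE M b R E n).re < -c := h5
    have h8 : R ^ n * (FE M b R E n).re < R ^ n * -c := mul_lt_mul_of_pos_left h7 hRn
    show 0 < li M b n
    linarith
  · refine h3 _ ?_
    filter_upwards [hev] with n hn h5
    have hRn : 0 < R ^ n := by positivity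
    rw [abs_div, abs_of_pos hRn, div_lt_iff₀ hRn] at hn
    have h6 := (abs_lt.1 hn).2
    have h7 : c < (FE M b R E n).re := h5
    have h8 : R ^ n * c < R ^ n * (FE M b R E n).re := mul_lt_mul_of_pos_left h7 hRn
    show li M b n < 0
    linarith

/-- there are infinitely many zeros -/
lemma infinite (hM : Zs M) : {z : ℂ | M z ≠ 0}.Infinite := by
  intro hfin
  obtain ⟨c, hc, Y0, hY0, h⟩ := hM.low
  obtain ⟨B, hB⟩ : ∃ B : ℝ, ∀ z, M z ≠ 0 → z.im ≤ B := by
    refine ⟨∑ z ∈ hfin.toFinset, |z.im|, fun z hz => ?_⟩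
    exact (le_abs_self _).trans (Finset.single_le_sum (f := fun z : ℂ => |z.im|) (fun _ _ => abs_nonneg _)
      ((Set.Finite.mem_toFinset _).2 hz))
  obtain ⟨Y, hY⟩ : ∃ Y : ℝ, Y = max (max Y0 B) 2 := ⟨_, rfl⟩
  have hY1 : Y0 ≤ Y := by rw [hY]; exact (le_max_left _ _).trans (le_max_left _ _)
  have hY2 : B ≤ Y := by rw [hY]; exact (le_max_right _ _).trans (le_max_left _ _)
  have hY3 : 2 ≤ Y := by rw [hY]; exact le_max_right _ _
  obtain ⟨S, hS, h2⟩ := h Y hY1
  have h3 : ∑ z ∈ S, M z = 0 := by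
    refine Finset.sum_eq_zero fun z hz => ?_
    by_contra h4
    have h5 := (hS z hz).1
    have h6 := hB z h4
    linarith
  have h4 : 0 < Real.log Y := Real.log_pos (by linarith)
  have h5 : 0 < c * Y * Real.log Y := by positivity
  linarith

/-- **All zeros on the line.** The coefficients are positive. -/
theorem on_line (hM : Zs M) {b : ℝ} (hb : 1 / 2 ≤ b) (h : ∀ z, M z ≠ 0 → z.re = 0) {n : ℕ} (hn : 1 ≤ n) :
    0 < li M b n := by
  have hnn : ∀ z, 0 ≤ M z * (1 - (W b z ^ n).re) := by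
    intro z
    by_cases h0 : M z = 0
    · simp [h0]
    · apply mul_nonneg (hM.nn z)
      have h1 := W_norm_one hb (hM.strip z h0) (h z h0)
      have h2 := Complex.re_le_norm (W b z ^ n)
      rw [norm_pow, h1, one_pow] at h2
      linarith
  obtain ⟨z, hz, hz1⟩ : ∃ z, M z ≠ 0 ∧ W b z ^ n ≠ 1 := by
    by_contra hcon
    push Not at hcon
    have hfin : (W b '' {z : ℂ | M z ≠ 0}).Finite := by
      refine (Set.Finite.subset (s := ((Polynomial.nthRoots n (1 : ℂ)).toFinset : Set ℂ)) (Finset.finite_toSet _) ?_)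
      rintro _ ⟨z, hz, rfl⟩
      rw [Finset.mem_coe, Multiset.mem_toFinset, Polynomial.mem_nthRoots (by omega)]
      exact hcon z hz
    have hinj : Set.InjOn (W b) {z : ℂ | M z ≠ 0} := fun z hz w hw hzw =>
      W_inj hb (hM.strip z hz) (hM.strip w hw) hzw
    exact infinite hM (hfin.of_finite_image hinj)
  have hpos : 0 < M z * (1 - (W b z ^ n).re) := by
    have h1 := W_norm_one hb (hM.strip z hz) (h z hz)
    have h2 : ‖W b z ^ n‖ = 1 := by rw [norm_pow, h1, one_pow]
    have h3 := hM.one z hz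
    have h4 : (W b z ^ n).re < 1 := by
      refine lt_of_le_of_ne (h2 ▸ Complex.re_le_norm (W b z ^ n)) fun h5 => hz1 ?_
      have h6 : (W b z ^ n).im = 0 := by
        have h7 := Complex.normSq_apply (W b z ^ n)
        rw [Complex.normSq_eq_norm_sq, h2, h5] at h7
        nlinarith
      exact Complex.ext h5 h6
    have h8 : 0 < 1 - (W b z ^ n).re := by linarith
    have h9 : 0 < M z := by linarith
    positivity
  exact (summ' hM hb n).tsum_pos hnn z hpos

lemma dense_all {P : ℕ → Prop} (h : ∀ n, 1 ≤ n → P n) : Dense P := by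
  refine ⟨1, one_pos, 0, 0, fun n L _ _ => ?_⟩
  have e : {k : ℕ | n < k ∧ k ≤ n + L ∧ P k} = ((Finset.Ioc n (n + L) : Finset ℕ) : Set ℕ) := by
    ext k
    simp only [Set.mem_ofPred_eq, Finset.coe_Ioc, Set.mem_Ioc]
    constructor
    · rintro ⟨a1, a2, -⟩
      exact ⟨a1, a2⟩
    · rintro ⟨a1, a2⟩
      exact ⟨a1, a2, h k (by omega)⟩
  rw [e, Set.ncard_coe_finset, Nat.card_Ioc, one_mul]
  simp

/-- long blocks without `P` -/
lemma not_dense_of {P : ℕ → Prop} (h : ∀ L n₀ : ℕ, ∃ n : ℕ, n₀ ≤ n ∧ ∀ k, n < k → k ≤ n + L → ¬ P k) : ¬ Dense P := by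
  rintro ⟨c, hc, n0, L0, h1⟩
  obtain ⟨n, hn, h2⟩ := h (L0 + 1) n0
  have h3 := h1 n (L0 + 1) hn (by omega)
  have e : {k : ℕ | n < k ∧ k ≤ n + (L0 + 1) ∧ P k} = ∅ := by
    ext k
    simp only [Set.mem_ofPred_eq, Set.mem_empty_iff_false, iff_false]
    rintro ⟨a1, a2, a3⟩
    exact h2 k a1 a2 a3
  rw [e, Set.ncard_empty] at h3
  have : 0 < c * ((L0 + 1 : ℕ) : ℝ) := by positivity
  simp at h3
  push_cast at this
  linarith

/-- **Unconditionally many positive coefficients.** -/
theorem pos_low (hM : Zs M) {b : ℝ} (hb : 1 / 2 ≤ b) : Dense (fun n => 0 < li M b n) := by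
  by_cases h : ∀ z, M z ≠ 0 → z.re = 0
  · exact dense_all fun n hn => on_line hM hb h hn
  · push Not at h
    obtain ⟨z, h1, h2⟩ := h
    exact (off_line hM hb h1 h2).1

end

end Pool.Agent.U156.LD
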