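import Mathlib

/-!
# Oscillation of finite exponential sums, with lower densities
-/

set_option autoImplicit false

open Complex Filter Topology Finset

namespace Pool.Agent.U156.LD

/-- The numbers `k` with `P k` have positive lower Banach density: among any `L ≥ L₀` consecutive numbers beyond
`n₀` there are at least `c L` of them. -/
def Dense (P : ℕ → Prop) : Prop :=
  ∃ c : ℝ, 0 < c ∧ ∃ n₀ L₀ : ℕ, ∀ n L : ℕ, n₀ ≤ n → L₀ ≤ L →
    c * L ≤ ({k : ℕ | n < k ∧ k ≤ n + L ∧ P k}.ncard : ℝ)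

/-- a bounded function with mean value zero and positive mean square is often negative -/
theorem dens_low {f : ℕ → ℝ} {A m2 K : ℝ} (hA : 0 < A) (hm : 0 < m2) (hb : ∀ n, |f n| ≤ A)
    (h1 : ∀ N : ℕ, |∑ n ∈ range N, f n| ≤ K) (h2 : ∀ N : ℕ, m2 * N - K ≤ ∑ n ∈ range N, f n ^ 2) (N : ℕ) :
    m2 / (4 * A ^ 2) * N - K * (1 + A) / (2 * A ^ 2) ≤
      (((range N).filter (fun n => f n < -(m2 / (4 * A)))).card : ℝ) := by
  classical
  set c : ℝ := m2 / (4 * A) with hc
  have hc0 : 0 < c := by positivity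
  have h3 : ∀ n, f n ^ 2 ≤ A * (f n + 2 * (A * (if f n < -c then 1 else 0) + c)) := by
    intro n
    have h4 := abs_le.1 (hb n)
    split_ifs with h
    · nlinarith [h4.1, h4.2]
    · push Not at h
      rcases le_total 0 (f n) with h5 | h5
      · nlinarith [h4.2]
      · nlinarith [h4.1]
  have h6 : ∑ n ∈ range N, f n ^ 2 ≤ A * (K + 2 * (A * ((range N).filter (fun n => f n < -c)).card + c * N)) := by
    calc ∑ n ∈ range N, f n ^ 2 ≤ ∑ n ∈ range N, A * (f n + 2 * (A * (if f n < -c then 1 else 0) + c)) :=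
          Finset.sum_le_sum fun n _ => h3 n
      _ = A * (∑ n ∈ range N, f n + 2 * (A * ((range N).filter (fun n => f n < -c)).card + c * N)) := by
          rw [← Finset.mul_sum, Finset.sum_add_distrib, ← Finset.mul_sum, Finset.sum_add_distrib, ← Finset.mul_sum,
            Finset.sum_const, Finset.card_range, nsmul_eq_mul, Finset.card_filter]
          push_cast
          ring
      _ ≤ _ := by
          have := le_abs_self (∑ n ∈ range N, f n)
          have := h1 N
          gcongr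
          linarith
  have h7 := (h2 N).trans h6
  have e1 : A * (2 * (c * N)) = m2 / 2 * N := by rw [hc]; field_simp; ring
  have h8 : m2 / 2 * N - K * (1 + A) ≤ 2 * A ^ 2 * ((range N).filter (fun n => f n < -c)).card := by nlinarith
  have h9 : (m2 / 2 * N - K * (1 + A)) / (2 * A ^ 2) ≤ ((range N).filter (fun n => f n < -c)).card := by
    rw [div_le_iff₀ (by positivity)]
    linarith
  refine le_trans (le_of_eq ?_) h9
  field_simp
  ring

/-- from the exponential sum to a property -/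
theorem dense_of {f : ℕ → ℝ} {A m2 K : ℝ} (hA : 0 < A) (hm : 0 < m2) (hb : ∀ n, |f n| ≤ A)
    (h1 : ∀ n N : ℕ, |∑ k ∈ range N, f (n + k)| ≤ K) (h2 : ∀ n N : ℕ, m2 * N - K ≤ ∑ k ∈ range N, f (n + k) ^ 2)
    {P : ℕ → Prop} (hP : ∀ᶠ n in atTop, f n < -(m2 / (4 * A)) → P n) : Dense P := by
  classical
  obtain ⟨n0, hn0⟩ := eventually_atTop.1 hP
  obtain ⟨L0, hL0⟩ := exists_nat_ge ((K * (1 + A) / (2 * A ^ 2)) / (m2 / (8 * A ^ 2)))
  refine ⟨m2 / (8 * A ^ 2), by positivity, n0, L0, fun n L hn hL => ?_⟩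
  have h3 := dens_low (f := fun k => f (n + 1 + k)) hA hm (fun k => hb _) (fun N => h1 (n + 1) N)
    (fun N => h2 (n + 1) N) L
  set S := (range L).filter (fun k => f (n + 1 + k) < -(m2 / (4 * A))) with hS
  have h4 : S.image (fun k => n + 1 + k) ⊆ (Finset.Ioc n (n + L)).filter P := by
    intro k hk
    rw [Finset.mem_image] at hk
    obtain ⟨j, hj, rfl⟩ := hk
    rw [hS, Finset.mem_filter, Finset.mem_range] at hj
    rw [Finset.mem_filter, Finset.mem_Ioc]
    exact ⟨⟨by omega, by omega⟩, hn0 _ (by omega) hj.2⟩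
  have h5 : (S.card : ℝ) ≤ (((Finset.Ioc n (n + L)).filter P).card : ℝ) := by
    have h6 := Finset.card_le_card h4
    rw [Finset.card_image_of_injective _ (fun a b hab => by simpa using hab)] at h6
    exact_mod_cast h6
  have e : {k : ℕ | n < k ∧ k ≤ n + L ∧ P k}.ncard = ((Finset.Ioc n (n + L)).filter P).card := by
    rw [← Set.ncard_coe_finset]
    congr 1
    ext k
    simp [and_assoc]
  rw [e]
  have h9 : (L0 : ℝ) ≤ L := by exact_mod_cast hL
  have h10 := hL0.trans h9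
  rw [div_le_iff₀ (by positivity)] at h10
  have e2 : m2 / (4 * A ^ 2) * L = m2 / (8 * A ^ 2) * L + m2 / (8 * A ^ 2) * L := by field_simp; ring
  linarith

lemma geom_le {w : ℂ} (hw : ‖w‖ = 1) (h1 : w ≠ 1) (N : ℕ) : ‖∑ n ∈ range N, w ^ n‖ ≤ 2 / ‖w - 1‖ := by
  rw [geom_sum_eq h1, norm_div]
  have : ‖w ^ N - 1‖ ≤ 2 := by
    refine (norm_sub_le _ _).trans ?_
    rw [norm_pow, hw, one_pow, norm_one]
    norm_num
  gcongr

/-- **Oscillation.** A real finite exponential sum without constant term is at least a constant, and at most minus a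
constant, on sets of positive lower density. -/
theorem osc (E : Finset ℂ) (hE : E.Nonempty) (m : ℂ → ℝ) (hm : ∀ z ∈ E, 1 ≤ m z) (w : ℂ → ℂ)
    (hw : ∀ z ∈ E, ‖w z‖ = 1) (h1 : ∀ z ∈ E, w z ≠ 1) (hinj : ∀ z ∈ E, ∀ z' ∈ E, w z = w z' → z = z')
    (hre : ∀ n : ℕ, (∑ z ∈ E, (m z : ℂ) * w z ^ n).im = 0) :
    ∃ c : ℝ, 0 < c ∧
      (∀ P : ℕ → Prop, (∀ᶠ n in atTop, (∑ z ∈ E, (m z : ℂ) * w z ^ n).re < -c → P n) → Dense P) ∧
      (∀ P : ℕ → Prop, (∀ᶠ n in atTop, c < (∑ z ∈ E, (m z : ℂ) * w z ^ n).re → P n) → Dense P) := by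
  classical
  set F : ℕ → ℂ := fun n => ∑ z ∈ E, (m z : ℂ) * w z ^ n with hF
  obtain ⟨A, hA⟩ : ∃ A : ℝ, A = ∑ z ∈ E, m z := ⟨_, rfl⟩
  obtain ⟨z0, hz0⟩ := hE
  have hm0 : ∀ z ∈ E, 0 ≤ m z := fun z hz => by linarith [hm z hz]
  have hA1 : 1 ≤ A := by
    rw [hA]
    exact (hm z0 hz0).trans (Finset.single_le_sum (f := m) hm0 hz0)
  have hb : ∀ n, |(F n).re| ≤ A := by
    intro n
    refine (Complex.abs_re_le_norm _).trans ?_
    rw [hF, hA]
    refine (norm_sum_le _ _).trans (Finset.sum_le_sum fun z hz => ?_)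
    rw [norm_mul, norm_pow, hw z hz, one_pow, mul_one, Complex.norm_real, Real.norm_eq_abs, abs_of_nonneg (hm0 z hz)]
  obtain ⟨K1, hK1⟩ : ∃ K1 : ℝ, K1 = ∑ z ∈ E, m z * (2 / ‖w z - 1‖) := ⟨_, rfl⟩
  have hs1 : ∀ n N : ℕ, |∑ k ∈ range N, (F (n + k)).re| ≤ K1 := by
    intro n N
    rw [← Complex.re_sum]
    refine (Complex.abs_re_le_norm _).trans ?_
    rw [hF, hK1, Finset.sum_comm]
    refine (norm_sum_le _ _).trans (Finset.sum_le_sum fun z hz => ?_)
    rw [← Finset.mul_sum, norm_mul, Complex.norm_real, Real.norm_eq_abs, abs_of_nonneg (hm0 z hz)]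
    refine mul_le_mul_of_nonneg_left ?_ (hm0 z hz)
    simp only [pow_add]
    rw [← Finset.mul_sum, norm_mul, norm_pow, hw z hz, one_pow, one_mul]
    exact geom_le (hw z hz) (h1 z hz) N
  -- the mean square
  obtain ⟨m2, hm2⟩ : ∃ m2 : ℝ, m2 = ∑ z ∈ E, m z ^ 2 := ⟨_, rfl⟩
  have hm20 : 0 < m2 := by
    rw [hm2]
    have h3 : m z0 ^ 2 ≤ ∑ z ∈ E, m z ^ 2 := Finset.single_le_sum (f := fun z => m z ^ 2) (fun _ _ => sq_nonneg _) hz0
    nlinarith [hm z0 hz0]
  obtain ⟨K2, hK2⟩ : ∃ K2 : ℝ, K2 = ∑ z ∈ E, ∑ z' ∈ E.erase z, m z * m z' * (2 / ‖w z * (starRingEnd ℂ) (w z') - 1‖) :=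
    ⟨_, rfl⟩
  have hne : ∀ z ∈ E, ∀ z' ∈ E.erase z, w z * (starRingEnd ℂ) (w z') ≠ 1 := by
    intro z hz z' hz' h
    have hz'E := Finset.mem_of_mem_erase hz'
    apply Finset.ne_of_mem_erase hz'
    refine (hinj z hz z' hz'E ?_).symm
    have h3 : w z' * (starRingEnd ℂ) (w z') = 1 := by
      rw [Complex.mul_conj, Complex.normSq_eq_norm_sq, hw z' hz'E]
      simp
    have h4 : (starRingEnd ℂ) (w z') ≠ 0 := by
      intro h0
      rw [h0, mul_zero] at h3
      exact zero_ne_one h3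
    exact mul_right_cancel₀ h4 (h.trans h3.symm)
  have hs2 : ∀ n N : ℕ, m2 * N - K2 ≤ ∑ k ∈ range N, (F (n + k)).re ^ 2 := by
    intro n N
    have e1 : ∀ n, (F n).re ^ 2 = (∑ z ∈ E, ∑ z' ∈ E, ((m z * m z' : ℝ) : ℂ) * (w z * (starRingEnd ℂ) (w z')) ^ n).re := by
      intro n
      have e2 : (((F n).re ^ 2 : ℝ) : ℂ) = F n * (starRingEnd ℂ) (F n) := by
        rw [Complex.mul_conj, Complex.normSq_apply, hre n]
        push_cast
        ring
      rw [← Complex.ofReal_re ((F n).re ^ 2), e2]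
      congr 1
      rw [hF, map_sum, Finset.sum_mul_sum]
      refine Finset.sum_congr rfl fun z _ => Finset.sum_congr rfl fun z' _ => ?_
      rw [map_mul, map_pow, Complex.conj_ofReal, mul_pow]
      push_cast
      ring
    have e3 : ∑ k ∈ range N, (F (n + k)).re ^ 2 =
        (∑ z ∈ E, ∑ z' ∈ E, ((m z * m z' : ℝ) : ℂ) * ∑ k ∈ range N, (w z * (starRingEnd ℂ) (w z')) ^ (n + k)).re := by
      rw [Finset.sum_congr rfl fun k _ => e1 (n + k), ← Complex.re_sum]
      congr 1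
      rw [Finset.sum_comm]
      refine Finset.sum_congr rfl fun z _ => ?_
      rw [Finset.sum_comm]
      refine Finset.sum_congr rfl fun z' _ => ?_
      rw [Finset.mul_sum]
    rw [e3]
    have e4 : ∀ z ∈ E, ∑ z' ∈ E, ((m z * m z' : ℝ) : ℂ) * ∑ k ∈ range N, (w z * (starRingEnd ℂ) (w z')) ^ (n + k) =
        ((m z ^ 2 * N : ℝ) : ℂ) + ∑ z' ∈ E.erase z, ((m z * m z' : ℝ) : ℂ) *
          ∑ k ∈ range N, (w z * (starRingEnd ℂ) (w z')) ^ (n + k) := by
      intro z hz
      rw [← Finset.add_sum_erase _ _ hz]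
      congr 1
      have h3 : w z * (starRingEnd ℂ) (w z) = 1 := by
        rw [Complex.mul_conj, Complex.normSq_eq_norm_sq, hw z hz]
        simp
      rw [h3]
      simp only [one_pow, Finset.sum_const, Finset.card_range, nsmul_eq_mul, mul_one]
      push_cast
      ring
    rw [Finset.sum_congr rfl e4, Finset.sum_add_distrib, Complex.add_re, ← Complex.ofReal_sum, Complex.ofReal_re]
    have e5 : ∑ z ∈ E, m z ^ 2 * (N : ℝ) = m2 * N := by rw [hm2, Finset.sum_mul]
    rw [e5]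
    have h5 : |(∑ z ∈ E, ∑ z' ∈ E.erase z, ((m z * m z' : ℝ) : ℂ) *
          ∑ k ∈ range N, (w z * (starRingEnd ℂ) (w z')) ^ (n + k)).re| ≤ K2 := by
      refine (Complex.abs_re_le_norm _).trans ?_
      rw [hK2]
      refine (norm_sum_le _ _).trans (Finset.sum_le_sum fun z hz => ?_)
      refine (norm_sum_le _ _).trans (Finset.sum_le_sum fun z' hz' => ?_)
      have hz'E := Finset.mem_of_mem_erase hz'
      have hmm : 0 ≤ m z * m z' := mul_nonneg (hm0 z hz) (hm0 z' hz'E)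
      rw [norm_mul, Complex.norm_real, Real.norm_eq_abs, abs_of_nonneg hmm]
      have hun : ‖w z * (starRingEnd ℂ) (w z')‖ = 1 := by
        rw [norm_mul, Complex.norm_conj, hw z hz, hw z' hz'E, one_mul]
      refine mul_le_mul_of_nonneg_left ?_ hmm
      simp only [pow_add]
      rw [← Finset.mul_sum, norm_mul, norm_pow, hun, one_pow, one_mul]
      exact geom_le hun (hne z hz z' hz') N
    have := (abs_le.1 h5).1
    linarith
  obtain ⟨K, hK⟩ : ∃ K : ℝ, K = max K1 K2 := ⟨_, rfl⟩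
  have hK1' : K1 ≤ K := by rw [hK]; exact le_max_left _ _
  have hK2' : K2 ≤ K := by rw [hK]; exact le_max_right _ _
  refine ⟨m2 / (4 * A), by positivity, fun P hP => ?_, fun P hP => ?_⟩
  · exact dense_of (f := fun n => (F n).re) (K := K) (by linarith) hm20 hb (fun n N => (hs1 n N).trans hK1')
      (fun n N => by have := hs2 n N; linarith) hP
  · refine dense_of (f := fun n => -(F n).re) (K := K) (m2 := m2) (A := A) (by linarith) hm20 (fun n => ?_)
      (fun n N => ?_) (fun n N => ?_) ?_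
    · rw [abs_neg]
      exact hb n
    · rw [Finset.sum_neg_distrib, abs_neg]
      exact (hs1 n N).trans hK1'
    · have := hs2 n N
      simp only [neg_sq]
      linarith
    · filter_upwards [hP] with n hn h3
      exact hn (by linarith)

end Pool.Agent.U156.LD
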