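import Pool.Agent.U156.LD.Rate
import Pool.Agent.N831.LP.H

/-!
# Growth and signs of the Li coefficients: completed L-functions
-/

set_option autoImplicit false

open Complex Filter Topology Finset
open scoped ComplexConjugate

namespace Pool.Agent.U156.LD

open Pool.Agent.N831.LI (Zs W li)
open Pool.Agent.N831.LP

noncomputable section

variable {κ0 : ℝ} {X : ℂ → ℂ}

lemma W_half (b : ℝ) (z : ℂ) : W (b / 2) (z / 2) = W b z := by
  rw [← W_scale (b / 2) (z / 2)]
  congr 1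
  · ring
  · ring

lemma summ_MX' (hκ : 1 / 2 ≤ κ0) (h : P2 κ0 X) {b : ℝ} (hb : 1 ≤ b) (n : ℕ) :
    Summable (fun z => MX X z * (1 - (W b z ^ n).re)) := by
  have h1 := summ' (zsX hκ h) (b := b / 2) (by linarith) n
  rw [← (Equiv.mulLeft₀ (2 : ℂ) two_ne_zero).summable_iff]
  refine h1.congr fun z => ?_
  have e1 : (Equiv.mulLeft₀ (2 : ℂ) two_ne_zero) z = 2 * z := rfl
  have e2 : W b (2 * z) = W (b / 2) z := by
    rw [← W_scale (b / 2) z]
    congr 1
    ring
  show _ = MX X ((Equiv.mulLeft₀ (2 : ℂ) two_ne_zero) z) * (1 - (W b ((Equiv.mulLeft₀ (2 : ℂ) two_ne_zero) z) ^ n).re)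
  rw [e1, e2]
  rfl

/-- (the proof is that of `Pool.Agent.N831.LP.liX_eq`) -/
lemma liX_eq' (hκ : 1 / 2 ≤ κ0) (h : P2 κ0 X) {b : ℝ} (hb : 1 ≤ b) (n : ℕ) : li (MX X) b n = 2 * liX X b n := by
  have h1 := summ_MX' hκ h hb n
  have h2 : Summable (fun z => (analyticOrderNatAt X z : ℝ) * (1 - (W b z ^ n).re)) := by
    refine Summable.of_norm_bounded h1.abs fun z => ?_
    rw [Real.norm_eq_abs, abs_mul, abs_mul, abs_of_nonneg (MX_nn z), abs_of_nonneg (Nat.cast_nonneg _)]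
    apply mul_le_mul_of_nonneg_right _ (abs_nonneg _)
    unfold MX
    have : (0 : ℝ) ≤ analyticOrderNatAt X (conj z) := Nat.cast_nonneg _
    linarith
  have h3 : Summable (fun z => (analyticOrderNatAt X (conj z) : ℝ) * (1 - (W b z ^ n).re)) := by
    have h4 := (Equiv.mk (fun z : ℂ => conj z) (fun z : ℂ => conj z) (fun z => Complex.conj_conj z)
      (fun z => Complex.conj_conj z)).summable_iff.2 h2
    refine h4.congr fun z => ?_
    show (analyticOrderNatAt X (conj z) : ℝ) * (1 - (W b (conj z) ^ n).re) = _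
    rw [Pool.Agent.N831.LI.W_conj, ← map_pow, Complex.conj_re]
  have h5 : ∑' z : ℂ, (analyticOrderNatAt X (conj z) : ℝ) * (1 - (W b z ^ n).re) = liX X b n := by
    have h6 := (Equiv.mk (fun z : ℂ => conj z) (fun z : ℂ => conj z) (fun z => Complex.conj_conj z)
      (fun z => Complex.conj_conj z)).tsum_eq (fun z => (analyticOrderNatAt X z : ℝ) * (1 - (W b z ^ n).re))
    unfold liX
    rw [← h6]
    refine tsum_congr fun z => ?_
    show _ = (analyticOrderNatAt X (conj z) : ℝ) * (1 - (W b (conj z) ^ n).re)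
    rw [Pool.Agent.N831.LI.W_conj, ← map_pow, Complex.conj_re]
  have h7 : li (MX X) b n = ∑' z : ℂ, (analyticOrderNatAt X z : ℝ) * (1 - (W b z ^ n).re) +
      ∑' z : ℂ, (analyticOrderNatAt X (conj z) : ℝ) * (1 - (W b z ^ n).re) := by
    rw [← h2.tsum_add h3]
    unfold li
    refine tsum_congr fun z => ?_
    unfold MX
    ring
  rw [h7, h5, two_mul]
  rfl

/-- For all large base points `a`, `|λ_n(a)| ≤ exp (κ n / a)` for all large `n`. -/
def SmallL (L : ℝ → ℕ → ℝ) (κ : ℝ) : Prop :=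
  ∀ᶠ a : ℝ in atTop, ∀ᶠ n : ℕ in atTop, |L a n| ≤ Real.exp (κ * n / a)

/-- For arbitrarily large base points `a`, `λ_n(a) ≥ -exp (κ n / a)` on arbitrarily long blocks, arbitrarily
far out. -/
def LowerL (L : ℝ → ℕ → ℝ) (κ : ℝ) : Prop :=
  ∃ᶠ a : ℝ in atTop, Blocks fun n => -Real.exp (κ * n / a) ≤ L a n

/-- all the statements -/
structure AllG (Λ : ℂ → ℂ) (L : ℝ → ℕ → ℝ) (x : ℝ) : Prop where
  conv : ∀ (a : ℝ) (n : ℕ), x + 1 ≤ a → Summable fun ρ : {ρ : ℂ // Λ ρ = 0} => (analyticOrderNatAt Λ ρ : ℝ) *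
      (1 - (((ρ : ℂ) - a) / (ρ + a - 2 * x)) ^ n).re
  pos : ∀ a : ℝ, x + 1 ≤ a → Dense fun n => 0 < L a n
  off : ∀ (a : ℝ) (s : ℂ), x + 1 ≤ a → Λ s = 0 → x < s.re →
      1 < ‖(s + a - 2 * x) / (s - a)‖ ∧ ∃ c : ℝ, 0 < c ∧
        (Dense fun n => c * ‖(s + a - 2 * x) / (s - a)‖ ^ n ≤ L a n) ∧
        Dense fun n => L a n ≤ -(c * ‖(s + a - 2 * x) / (s - a)‖ ^ n)
  rh : ∀ a : ℝ, x + 1 ≤ a → ((∀ s : ℂ, Λ s = 0 → s.re = x) ↔ Blocks fun n => 0 ≤ L a n)
  triv : ∀ κ : ℝ, 1 < κ → SmallL L κ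
  strip : ∀ κ : ℝ, 0 ≤ κ → κ < 1 →
      List.TFAE [ZeroFree Λ (x + κ / 2), ∀ κ' : ℝ, κ < κ' → SmallL L κ', ∀ κ' : ℝ, κ < κ' → LowerL L κ']
  quasi : List.TFAE [∃ d : ℝ, d < 1 / 2 ∧ ZeroFree Λ (x + d), ∃ κ : ℝ, κ < 1 ∧ SmallL L κ, ∃ κ : ℝ, κ < 1 ∧ LowerL L κ]

lemma Blocks.mono_eventually {P Q : ℕ → Prop} (h : Blocks P) (hPQ : ∀ᶠ n in atTop, P n → Q n) : Blocks Q := by
  obtain ⟨N, hN⟩ := eventually_atTop.1 hPQ
  intro L n0
  obtain ⟨n, hn, h1⟩ := h L (max N n0)
  exact ⟨n, (le_max_right _ _).trans hn, fun k hk hkL =>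
    hN k (((le_max_left _ _).trans hn).trans hk.le) (h1 k hk hkL)⟩

/-- a factor `2` is harmless -/
lemma two_exp {κ κ' a : ℝ} (h : κ < κ') (ha : 0 < a) : ∀ᶠ n : ℕ in atTop,
    2 * Real.exp (κ * n / a) ≤ Real.exp (κ' * n / a) := by
  have h1 : Tendsto (fun n : ℕ => ((κ' - κ) / a) * (n : ℝ)) atTop atTop :=
    tendsto_natCast_atTop_atTop.const_mul_atTop (div_pos (by linarith) ha)
  filter_upwards [h1.eventually_ge_atTop (Real.log 2)] with n hn
  have e : Real.exp (κ' * n / a) = Real.exp (((κ' - κ) / a) * n) * Real.exp (κ * n / a) := by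
    rw [← Real.exp_add]
    congr 1
    field_simp
    ring
  rw [e]
  have h2 : 2 ≤ Real.exp (((κ' - κ) / a) * n) := by
    rw [← Real.log_le_iff_le_exp (by norm_num)]
    exact hn
  exact mul_le_mul_of_nonneg_right h2 (Real.exp_pos _).le

theorem allG {Λ : ℂ → ℂ} {v : ℂ} (hκ0 : 1 / 2 ≤ κ0) (hv : v ≠ 0) {x : ℝ}
    (h : P2 κ0 (fun z => v * Λ ((x : ℂ) + z))) {L : ℝ → ℕ → ℝ}
    (hL : ∀ a n, L a n = ∑' ρ : {ρ : ℂ // Λ ρ = 0}, (analyticOrderNatAt Λ ρ : ℝ) *
      (1 - (((ρ : ℂ) - a) / (ρ + a - 2 * x)) ^ n).re) : AllG Λ L x := by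
  classical
  obtain ⟨m, hm⟩ : ∃ m : ℝ, m = 2 * x := ⟨_, rfl⟩
  have hx : x = m / 2 := by rw [hm]; ring
  have hL' : L = lam Λ m := by
    funext a n
    rw [hL]
    unfold lam
    rw [hm]
    push_cast
    rfl
  obtain ⟨X, hX⟩ : ∃ X : ℂ → ℂ, X = fun z => v * Λ ((x : ℂ) + z) := ⟨_, rfl⟩
  rw [← hX] at h
  have hX' : X = fun z => v * Λ (((m / 2 : ℝ) : ℂ) + z) := by rw [hX, hx]
  have hz := zsX hκ0 h
  have hP : P2 κ0 (fun z => v * Λ (((m / 2 : ℝ) : ℂ) + z)) := by rw [← hX']; exact h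
  -- the coefficients
  have key : ∀ (a : ℝ) (n : ℕ), x + 1 ≤ a → li (MS X) ((a - x) / 2) n = 2 * L a n := by
    intro a n ha
    rw [li_scale, show 2 * ((a - x) / 2) = a - x by ring, liX_eq' hκ0 h (by linarith), hL', lam_eq hv hP, ← hx, ← hX]
  -- the zeros
  have hzero : ∀ s : ℂ, Λ s = 0 → MS X ((s - x) / 2) ≠ 0 := by
    intro s hs
    unfold MS
    have e : (2 : ℂ) * ((s - x) / 2) = s - x := by ring
    rw [e]
    apply MX_ne h
    rw [hX]
    show v * Λ ((x : ℂ) + (s - x)) = 0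
    rw [add_sub_cancel, hs, mul_zero]
  have hbd : ∀ s : ℂ, Λ s = 0 → |s.re - x| ≤ 1 / 2 := by
    intro s hs
    have h1 : MX X (s - x) ≠ 0 := by
      apply MX_ne h
      rw [hX]
      show v * Λ ((x : ℂ) + (s - x)) = 0
      rw [add_sub_cancel, hs, mul_zero]
    have h2 := MX_strip h h1
    rwa [Complex.sub_re, Complex.ofReal_re] at h2
  have hfree : ∀ {d : ℝ}, ZeroFree Λ (x + d) → ∀ z, MS X z ≠ 0 → |z.re| ≤ d / 2 := by
    intro d hd z hz
    unfold MS at hz
    have e : (2 * z : ℂ).re = 2 * z.re := by simp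
    have hd' : ZeroFree Λ (m / 2 + d) := by rwa [← hx]
    rcases MX_zero h hz with h1 | h1
    · have h2 := symm_zero hv hP hd' (2 * z) (by rw [← hX']; exact h1)
      rw [e, abs_mul, abs_of_pos (by norm_num : (0:ℝ) < 2)] at h2
      linarith
    · have h2 := symm_zero hv hP hd' (conj (2 * z)) (by rw [← hX']; exact h1)
      rw [Complex.conj_re, e, abs_mul, abs_of_pos (by norm_num : (0:ℝ) < 2)] at h2
      linarith
  have htend : Tendsto (fun a : ℝ => a / 2) atTop atTop := tendsto_id.atTop_div_const (by norm_num)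
  -- small coefficients
  have small : ∀ {δ κ' : ℝ}, 0 ≤ δ → δ ≤ 1 / 2 → 2 * δ < κ' → (∀ z, MS X z ≠ 0 → |z.re| ≤ δ / 2) → SmallL L κ' := by
    intro δ κ' h0 h1 h2 h3
    have h4 := rate_up hz (δ := δ / 2) (δ' := κ' / 4) (x / 2) (by linarith) (by linarith) (by linarith) h3
    have h5 := htend.eventually h4
    filter_upwards [h5, eventually_ge_atTop (x + 1)] with a ha hax
    filter_upwards [ha] with n hn
    have e1 : a / 2 - x / 2 = (a - x) / 2 := by ring
    have e2 : 2 * (κ' / 4) * n / (a / 2) = κ' * n / a := by field_simp; ring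
    rw [e1, e2, key a n hax, abs_mul, abs_of_pos (by norm_num : (0:ℝ) < 2)] at hn
    have := abs_nonneg (L a n)
    linarith
  -- lower bounds
  have lower : ∀ {κ κ' : ℝ}, 0 ≤ κ' → κ < κ' → LowerL L κ → ∀ z, MS X z ≠ 0 → |z.re| ≤ κ' / 4 := by
    intro κ κ' h0 h1 h2
    refine rate_low hz (x / 2) (by linarith) (htend.frequently (p := fun y : ℝ =>
      Blocks (fun n => -Real.exp (2 * (κ' / 4) * n / y) ≤ li (MS X) (y - x / 2) n)) ?_)
    refine (h2.and_eventually ((eventually_ge_atTop (x + 1)).and (eventually_gt_atTop (0 : ℝ)))).mono fun a ha => ?_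
    obtain ⟨h3, h4, h5⟩ := ha
    refine h3.mono_eventually ?_
    filter_upwards [two_exp h1 h5] with n hn h6
    have e1 : a / 2 - x / 2 = (a - x) / 2 := by ring
    have e2 : 2 * (κ' / 4) * n / (a / 2) = κ' * n / a := by field_simp; ring
    rw [e1, e2, key a n h4]
    linarith
  have zf : ∀ {δ : ℝ}, (∀ z, MS X z ≠ 0 → |z.re| ≤ δ) → ∀ s, Λ s = 0 → s.re ≤ x + 2 * δ := by
    intro δ h1 s hs
    have h2 := h1 _ (hzero s hs)
    have e : ((s - x) / 2 : ℂ).re = (s.re - x) / 2 := by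
      rw [show ((s - x) / 2 : ℂ) = (s - x) / ((2 : ℝ) : ℂ) by push_cast; rfl, Complex.div_ofReal_re]
      simp
    rw [e] at h2
    have h3 := le_abs_self ((s.re - x) / 2)
    linarith
  have sl : ∀ {κ : ℝ}, SmallL L κ → LowerL L κ := by
    intro κ h1
    refine Eventually.frequently ?_
    filter_upwards [h1] with a ha
    refine Blocks.of_eventually ?_
    filter_upwards [ha] with n hn
    exact (abs_le.1 hn).1
  have lz : ∀ {κ : ℝ}, 0 ≤ κ → (∀ κ' : ℝ, κ < κ' → LowerL L κ') → ZeroFree Λ (x + κ / 2) := by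
    intro κ h0 h1 s hs hs0
    obtain ⟨κ1, h2, h3⟩ := exists_between (show κ < 2 * (s.re - x) by linarith)
    obtain ⟨κ2, h4, h5⟩ := exists_between h3
    have h6 := zf (lower (by linarith) h4 (h1 κ1 h2)) s hs0
    linarith
  have hb2 : ∀ {a : ℝ}, x + 1 ≤ a → (1 : ℝ) / 2 ≤ (a - x) / 2 := fun ha => by linarith
  refine ⟨fun a n ha => ?_, fun a ha => ?_, fun a s ha hs hre => ?_, fun a ha => ⟨fun h1 => ?_, fun h1 => ?_⟩,
    fun κ hκ => ?_, fun κ h0 h1 => ?_, ?_⟩
  · -- convergence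
    have h1 := summ_MX' hκ0 h (b := a - x) (by linarith) n
    have h2 : Summable (fun z => (analyticOrderNatAt X z : ℝ) * (1 - (W (a - x) z ^ n).re)) := by
      refine Summable.of_norm_bounded h1.abs fun z => ?_
      rw [Real.norm_eq_abs, abs_mul, abs_mul, abs_of_nonneg (MX_nn z), abs_of_nonneg (Nat.cast_nonneg _)]
      apply mul_le_mul_of_nonneg_right _ (abs_nonneg _)
      unfold MX
      have : (0 : ℝ) ≤ analyticOrderNatAt X (conj z) := Nat.cast_nonneg _
      linarith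
    have h3 := (Equiv.addLeft (x : ℂ)).symm.summable_iff.2 h2
    have h4 := h3.subtype {ρ : ℂ | Λ ρ = 0}
    refine h4.congr fun ρ => ?_
    have e : (Equiv.addLeft (x : ℂ)).symm ρ.1 = -(x : ℂ) + ρ.1 := rfl
    simp only [Function.comp]
    rw [e]
    have e5 : analyticOrderNatAt X (-(x : ℂ) + ρ.1) = analyticOrderNatAt Λ ρ.1 := by
      have h5 := order_of (m := m) hv hP (-(x : ℂ) + ρ.1)
      rw [← hX', ← hx] at h5
      rw [h5]
      congr 1
      ring
    rw [e5]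
    unfold W
    rw [Complex.sub_re, Complex.one_re]
    have e3 : (-(x : ℂ) + ρ.1) - ((a - x : ℝ) : ℂ) = ρ.1 - a := by push_cast; ring
    have e4 : (-(x : ℂ) + ρ.1) + ((a - x : ℝ) : ℂ) = ρ.1 + a - 2 * x := by push_cast; ring
    rw [e3, e4]
  · refine (pos_low hz (hb2 ha)).mono fun n hn => ?_
    rw [key a n ha] at hn
    linarith
  · have h1 := hzero s hs
    have h2 : MS X (-((s - x) / 2)) ≠ 0 := by rwa [hz.neg]
    have e0 : ((s - x) / 2 : ℂ).re = (s.re - x) / 2 := by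
      rw [show ((s - x) / 2 : ℂ) = (s - x) / ((2 : ℝ) : ℂ) by push_cast; rfl, Complex.div_ofReal_re]
      simp
    have h4 : (-((s - x) / 2) : ℂ).re < 0 := by
      rw [Complex.neg_re, e0]
      linarith
    have e : ‖W ((a - x) / 2) (-((s - x) / 2))‖ = ‖(s + a - 2 * x) / (s - a)‖ := by
      rw [show (-((s - x) / 2) : ℂ) = (-(s - x)) / 2 by ring, W_half]
      unfold W
      rw [norm_div, norm_div, ← norm_neg (-(s - x) - ((a - x : ℝ) : ℂ)), ← norm_neg (-(s - x) + ((a - x : ℝ) : ℂ))]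
      congr 2
      · push_cast; ring
      · push_cast; ring
    have h5 := one_lt_W (hb2 ha) (hz.strip _ h2) h4
    obtain ⟨c, hc, h6, h7⟩ := grow hz (hb2 ha) h2 h4
    rw [e] at h5
    simp only [e] at h6 h7
    refine ⟨h5, c / 2, by linarith, h6.mono fun n hn => ?_, h7.mono fun n hn => ?_⟩
    · rw [key a n ha] at hn
      linarith
    · rw [key a n ha] at hn
      linarith
  · refine Blocks.of_eventually ?_
    have h2 : ∀ z, MS X z ≠ 0 → z.re = 0 := by
      intro z hz0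
      have h3 := hfree (d := 0) (fun s hs h0 => by
        have := h1 s h0
        rw [this, add_zero] at hs
        exact lt_irrefl _ hs) z hz0
      rw [zero_div] at h3
      exact abs_eq_zero.1 (le_antisymm h3 (abs_nonneg _))
    filter_upwards [eventually_ge_atTop 1] with n hn
    have := on_line hz (hb2 ha) h2 hn
    rw [key a n ha] at this
    linarith
  · intro s hs
    by_contra hne
    have h2 : ((s - x) / 2 : ℂ).re ≠ 0 := by
      have e0 : ((s - x) / 2 : ℂ).re = (s.re - x) / 2 := by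
        rw [show ((s - x) / 2 : ℂ) = (s - x) / ((2 : ℝ) : ℂ) by push_cast; rfl, Complex.div_ofReal_re]
        simp
      rw [e0]
      intro h3
      apply hne
      linarith
    have h3 := (off_line hz (hb2 ha) (hzero s hs) h2).2
    refine h1.not_dense (Eventually.of_forall fun n hn => ?_) h3
    rw [key a n ha]
    linarith
  · refine small (δ := 1 / 2) (by norm_num) le_rfl (by linarith) fun z hz0 => ?_
    have h1 := MX_strip h (z := 2 * z) hz0
    have e : (2 * z : ℂ).re = 2 * z.re := by simp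
    rw [e, abs_mul, abs_of_pos (by norm_num : (0:ℝ) < 2)] at h1
    linarith
  · tfae_have 1 → 2 := by
      intro h2 κ' hκ'
      exact small (δ := κ / 2) (by linarith) (by linarith) (by linarith) (hfree h2)
    tfae_have 2 → 3 := fun h2 κ' hκ' => sl (h2 κ' hκ')
    tfae_have 3 → 1 := fun h2 => lz h0 h2
    tfae_finish
  · tfae_have 1 → 2 := by
      rintro ⟨d, h1, h2⟩
      have h3 : max d 0 < 1 / 2 := max_lt h1 (by norm_num)
      obtain ⟨κ', h4, h5⟩ := exists_between (show 2 * max d 0 < 1 by linarith)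
      refine ⟨κ', h5, small (δ := max d 0) (le_max_right _ _) h3.le h4 (hfree fun s hs => h2 s ?_)⟩
      have := le_max_left d 0
      linarith
    tfae_have 2 → 3 := fun ⟨κ, h1, h2⟩ => ⟨κ, h1, sl h2⟩
    tfae_have 3 → 1 := by
      rintro ⟨κ, h1, h2⟩
      obtain ⟨κ', h3, h4⟩ := exists_between (show max κ 0 < 1 from max_lt h1 (by norm_num))
      have h5 := le_max_left κ 0
      have h6 := le_max_right κ 0
      refine ⟨κ' / 2, by linarith, fun s hs h0 => ?_⟩
      have h7 := zf (lower (κ' := κ') (by linarith) (by linarith) h2) s h0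
      linarith
    tfae_finish

end

end Pool.Agent.U156.LD
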