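import Pool.Agent.U156.LD.Osc
import Pool.Agent.N831.LI.Key

/-!
# Signs and growth of the Li coefficients with a fixed base point, abstract zeros
-/

set_option autoImplicit false

open Complex Filter Topology Finset

namespace Pool.Agent.U156.LD

open Pool.Agent.N831.LI (Zs W li finite_supp pow_exp W_neg W_conj W_one_sub cnt2)

noncomputable section

variable {M : ℂ → ℝ}

lemma add_ne' {b : ℝ} (hb : 1 / 2 ≤ b) {z : ℂ} (hz : |z.re| < 1 / 2) : z + b ≠ 0 := by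
  intro h
  have := congrArg Complex.re h
  simp at this
  rw [abs_lt] at hz
  linarith [hz.1]

lemma sub_ne' {b : ℝ} (hb : 1 / 2 ≤ b) {z : ℂ} (hz : |z.re| < 1 / 2) : z - b ≠ 0 := by
  intro h
  have := congrArg Complex.re h
  simp at this
  rw [abs_lt] at hz
  linarith [hz.2]

lemma W_ne' {b : ℝ} (hb : 1 / 2 ≤ b) {z : ℂ} (hz : |z.re| < 1 / 2) : W b z ≠ 0 :=
  div_ne_zero (sub_ne' hb hz) (add_ne' hb hz)

lemma W_ne_one {b : ℝ} (hb : 1 / 2 ≤ b) {z : ℂ} (hz : |z.re| < 1 / 2) : W b z ≠ 1 := by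
  intro h
  unfold W at h
  rw [div_eq_one_iff_eq (add_ne' hb hz)] at h
  have := congrArg Complex.re h
  simp at this
  linarith

lemma W_inj {b : ℝ} (hb : 1 / 2 ≤ b) {z w : ℂ} (hz : |z.re| < 1 / 2) (hw : |w.re| < 1 / 2) (h : W b z = W b w) :
    z = w := by
  unfold W at h
  rw [div_eq_div_iff (add_ne' hb hz) (add_ne' hb hw)] at h
  have hb0 : (b : ℂ) ≠ 0 := by
    have : b ≠ 0 := by linarith
    exact_mod_cast this
  have h2 : (2 * b : ℂ) * (z - w) = 0 := by linear_combination h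
  rcases mul_eq_zero.1 h2 with h3 | h3
  · exact absurd h3 (mul_ne_zero two_ne_zero hb0)
  · exact sub_eq_zero.1 h3

lemma norm_W_sq {b : ℝ} (hb : 1 / 2 ≤ b) {z : ℂ} (hz : |z.re| < 1 / 2) :
    ‖W b z‖ ^ 2 = 1 - 4 * b * z.re / ((z.re + b) ^ 2 + z.im ^ 2) := by
  have h0 : 0 < (z.re + b) ^ 2 + z.im ^ 2 := by
    rw [abs_lt] at hz
    have : 0 < z.re + b := by linarith [hz.1]
    positivity
  unfold W
  rw [norm_div, div_pow, ← Complex.normSq_eq_norm_sq, ← Complex.normSq_eq_norm_sq,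
    Pool.Agent.N831.LI.normSq_add, Pool.Agent.N831.LI.normSq_sub]
  field_simp
  ring

lemma one_lt_W {b : ℝ} (hb : 1 / 2 ≤ b) {z : ℂ} (hz : |z.re| < 1 / 2) (h : z.re < 0) : 1 < ‖W b z‖ := by
  have h1 := norm_W_sq hb hz
  have h0 : 0 < (z.re + b) ^ 2 + z.im ^ 2 := by
    rw [abs_lt] at hz
    have : 0 < z.re + b := by linarith [hz.1]
    positivity
  have h2 : 4 * b * z.re / ((z.re + b) ^ 2 + z.im ^ 2) < 0 := by
    apply div_neg_of_neg_of_pos _ h0
    nlinarith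
  have h3 : 1 < ‖W b z‖ ^ 2 := by linarith
  by_contra hcon
  push Not at hcon
  have := pow_le_one₀ (norm_nonneg _) hcon (n := 2)
  linarith

lemma W_norm_one {b : ℝ} (hb : 1 / 2 ≤ b) {z : ℂ} (hz : |z.re| < 1 / 2) (h : z.re = 0) : ‖W b z‖ = 1 := by
  have h1 := norm_W_sq hb hz
  rw [h, mul_zero, zero_div, sub_zero] at h1
  exact (pow_eq_one_iff_of_nonneg (norm_nonneg _) two_ne_zero).1 h1

/-- the terms of the high zeros -/
lemma term_high {b : ℝ} (hb : 1 / 2 ≤ b) {z : ℂ} (hz : |z.re| < 1 / 2) {Y : ℝ} (hY : 1 ≤ Y) (hy : Y ≤ |z.im|) (n : ℕ) :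
    |1 - (W b z ^ n).re| ≤ 16 * (n * b) ^ 2 * 2 * (1 + 2 * b / Y) ^ n / (1 + |z.im|) ^ 2 := by
  rcases Nat.eq_zero_or_pos n with h0 | h0
  · subst h0
    simp
  have hn1 : (1 : ℝ) ≤ n := by exact_mod_cast h0
  have hb0 : 0 < b := by linarith
  have hne := add_ne' hb hz
  set u : ℂ := 2 * b / (z + b) with hu
  have hW : W b z = 1 - u := W_one_sub hne
  have h1 := pow_exp u n
  rw [← hW] at h1
  have hy1 : 1 ≤ |z.im| := hY.trans hy
  have hnb : |z.im| ^ 2 ≤ Complex.normSq (z + b) := by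
    rw [Pool.Agent.N831.LI.normSq_add, sq_abs]
    nlinarith [sq_nonneg (z.re + b)]
  have hnn : |z.im| ^ 2 ≤ ‖z + b‖ ^ 2 := by rwa [← Complex.normSq_eq_norm_sq]
  have hnn1 : |z.im| ≤ ‖z + b‖ := by
    have := Real.sqrt_le_sqrt hnn
    rwa [Real.sqrt_sq (abs_nonneg _), Real.sqrt_sq (norm_nonneg _)] at this
  have hun : ‖u‖ = 2 * b / ‖z + b‖ := by
    rw [hu, norm_div]
    congr 1
    rw [norm_mul, Complex.norm_real, Real.norm_eq_abs, abs_of_pos hb0]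
    norm_num
  have hu1 : ‖u‖ ≤ 2 * b / |z.im| := by
    rw [hun]
    exact div_le_div_of_nonneg_left (by positivity) (by linarith) hnn1
  have hu2 : ‖u‖ ≤ 2 * b / Y := hu1.trans (div_le_div_of_nonneg_left (by positivity) (by linarith) hy)
  have hure : |u.re| ≤ 4 * b ^ 2 / |z.im| ^ 2 := by
    have e : u.re = 2 * b * (z.re + b) / Complex.normSq (z + b) := by
      rw [hu]
      have e1 : (2 * b / (z + b) : ℂ) = ((2 * b : ℝ) : ℂ) * (z + b)⁻¹ := by push_cast; rw [div_eq_mul_inv]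
      rw [e1, Complex.re_ofReal_mul, Complex.inv_re]
      simp
      ring
    have h2 := abs_lt.1 hz
    have h3 : 0 < z.re + b := by linarith [h2.1]
    have h4 : 0 < Complex.normSq (z + b) := Complex.normSq_pos.2 hne
    rw [e, abs_of_nonneg (by positivity)]
    apply div_le_div₀ (by positivity) _ (by positivity) hnb
    nlinarith [h2.2]
  have h5 : |1 - (W b z ^ n).re| ≤ n * |u.re| + (n : ℝ) ^ 2 * ‖u‖ ^ 2 * (1 + ‖u‖) ^ n := by
    have e : 1 - (W b z ^ n).re = n * u.re - (W b z ^ n - 1 + n * u).re := by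
      rw [Complex.add_re, Complex.sub_re, Complex.one_re, ← Complex.ofReal_natCast, Complex.re_ofReal_mul]
      ring
    rw [e]
    refine (abs_sub _ _).trans ?_
    rw [abs_mul, abs_of_nonneg (show (0:ℝ) ≤ n by positivity)]
    have := (Complex.abs_re_le_norm (W b z ^ n - 1 + n * u)).trans h1
    linarith
  have hpow : (1 : ℝ) ≤ (1 + 2 * b / Y) ^ n := one_le_pow₀ (by
    have : 0 ≤ 2 * b / Y := by positivity
    linarith)
  have h6 : (n : ℝ) ^ 2 * ‖u‖ ^ 2 * (1 + ‖u‖) ^ n ≤ (n : ℝ) ^ 2 * (2 * b / |z.im|) ^ 2 * (1 + 2 * b / Y) ^ n := by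
    gcongr
  have h7 : (n : ℝ) * |u.re| ≤ (n : ℝ) ^ 2 * (4 * b ^ 2 / |z.im| ^ 2) * (1 + 2 * b / Y) ^ n := by
    calc (n : ℝ) * |u.re| ≤ n * (4 * b ^ 2 / |z.im| ^ 2) := by gcongr
      _ ≤ (n : ℝ) ^ 2 * (4 * b ^ 2 / |z.im| ^ 2) := by
          have : (n : ℝ) ≤ (n : ℝ) ^ 2 := by nlinarith
          gcongr
      _ ≤ _ := le_mul_of_one_le_right (by positivity) hpow
  have h8 : (1 + |z.im|) ^ 2 ≤ 4 * |z.im| ^ 2 := by nlinarith
  rw [le_div_iff₀ (by positivity)]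
  calc |1 - (W b z ^ n).re| * (1 + |z.im|) ^ 2 ≤
        ((n : ℝ) ^ 2 * (4 * b ^ 2 / |z.im| ^ 2) * (1 + 2 * b / Y) ^ n + (n : ℝ) ^ 2 * (2 * b / |z.im|) ^ 2 * (1 + 2 * b / Y) ^ n) *
          (4 * |z.im| ^ 2) := by
        apply mul_le_mul (h5.trans (by linarith)) h8 (by positivity) (by positivity)
    _ = _ := by
        have : |z.im| ≠ 0 := by positivity
        field_simp
        ring

/-- the zeros up to `Y` -/
def near (hM : Zs M) (Y : ℝ) : Finset ℂ := (finite_supp hM Y).toFinset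

lemma mem_near (hM : Zs M) {Y : ℝ} {z : ℂ} : z ∈ near hM Y ↔ M z ≠ 0 ∧ |z.im| ≤ Y := by
  unfold near
  rw [Set.Finite.mem_toFinset]
  rfl

/-- the tails -/
lemma tail_le (hM : Zs M) {b : ℝ} (hb : 1 / 2 ≤ b) : ∃ C : ℝ, 0 ≤ C ∧ ∀ (Y : ℝ) (n : ℕ), 1 ≤ Y →
    ∀ S : Finset ℂ, (∀ z ∈ S, Y ≤ |z.im|) → ∑ z ∈ S, |M z * (1 - (W b z ^ n).re)| ≤
      C * (n ^ 2 * (1 + 2 * b / Y) ^ n) := by
  obtain ⟨C2, hC2, h2⟩ := cnt2 hM
  refine ⟨32 * b ^ 2 * C2, by positivity, fun Y n hY S hS => ?_⟩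
  calc ∑ z ∈ S, |M z * (1 - (W b z ^ n).re)|
      ≤ ∑ z ∈ S, (16 * (n * b) ^ 2 * 2 * (1 + 2 * b / Y) ^ n) * (M z / (1 + |z.im|) ^ 2) := by
        refine Finset.sum_le_sum fun z hz => ?_
        rw [abs_mul, abs_of_nonneg (hM.nn z)]
        by_cases h0 : M z = 0
        · simp [h0]
        have h3 := mul_le_mul_of_nonneg_left (term_high hb (hM.strip z h0) hY (hS z hz) n) (hM.nn z)
        refine h3.trans (le_of_eq ?_)
        ring
    _ = (16 * (n * b) ^ 2 * 2 * (1 + 2 * b / Y) ^ n) * ∑ z ∈ S, M z / (1 + |z.im|) ^ 2 := by rw [Finset.mul_sum]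
    _ ≤ (16 * (n * b) ^ 2 * 2 * (1 + 2 * b / Y) ^ n) * C2 := by
        have hb0 : 0 < b := by linarith
        have := h2 S
        gcongr
    _ = _ := by ring

lemma summ' (hM : Zs M) {b : ℝ} (hb : 1 / 2 ≤ b) (n : ℕ) : Summable (fun z => M z * (1 - (W b z ^ n).re)) := by
  classical
  obtain ⟨C, hC, h⟩ := tail_le hM hb
  have h1 : Summable (fun z => |M z * (1 - (W b z ^ n).re)|) := by
    refine summable_of_sum_le (c := ∑ z ∈ near hM 1, |M z * (1 - (W b z ^ n).re)| + C * (n ^ 2 * (1 + 2 * b / 1) ^ n))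
      (fun _ => abs_nonneg _) fun S => ?_
    rw [← Finset.sum_filter_add_sum_filter_not S (fun z => M z ≠ 0 ∧ |z.im| ≤ 1)]
    refine add_le_add ?_ ?_
    · refine Finset.sum_le_sum_of_subset_of_nonneg (fun z hz => ?_) fun z _ _ => abs_nonneg _
      exact (mem_near hM).2 (Finset.mem_filter.1 hz).2
    · have h3 := h 1 n le_rfl ((S.filter (fun z => ¬ (M z ≠ 0 ∧ |z.im| ≤ 1))).filter (fun z => 1 ≤ |z.im|))
        (fun z hz => (Finset.mem_filter.1 hz).2)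
      refine le_trans (le_of_eq ?_) h3
      refine (Finset.sum_filter_of_ne fun z hz hne => ?_).symm
      have h4 := (Finset.mem_filter.1 hz).2
      by_contra h5
      push Not at h5
      apply hne
      have h6 : M z = 0 := by
        by_contra h7
        exact h4 ⟨h7, h5.le⟩
      rw [h6, zero_mul, abs_zero]
  exact h1.of_abs

/-- the sum over the near zeros approximates the coefficient -/
lemma li_near (hM : Zs M) {b : ℝ} (hb : 1 / 2 ≤ b) : ∃ C : ℝ, 0 ≤ C ∧ ∀ (Y : ℝ) (n : ℕ), 1 ≤ Y →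
    |li M b n - ∑ z ∈ near hM Y, M z * (1 - (W b z ^ n).re)| ≤ C * (n ^ 2 * (1 + 2 * b / Y) ^ n) := by
  classical
  obtain ⟨C, hC, h⟩ := tail_le hM hb
  refine ⟨C, hC, fun Y n hY => ?_⟩
  have hs : HasSum (fun z => M z * (1 - (W b z ^ n).re)) (li M b n) := (summ' hM hb n).hasSum
  have h1 : Tendsto (fun T : Finset ℂ => |∑ z ∈ T, M z * (1 - (W b z ^ n).re) -
      ∑ z ∈ near hM Y, M z * (1 - (W b z ^ n).re)|) atTop
      (𝓝 |li M b n - ∑ z ∈ near hM Y, M z * (1 - (W b z ^ n).re)|) := (hs.sub_const _).abs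
  refine le_of_tendsto h1 ?_
  filter_upwards [eventually_ge_atTop (near hM Y)] with T hT
  rw [← Finset.sum_sdiff hT, add_sub_cancel_right]
  refine (Finset.abs_sum_le_sum_abs _ _).trans ?_
  have h3 := h Y n hY ((T \ near hM Y).filter (fun z => Y ≤ |z.im|)) (fun z hz => (Finset.mem_filter.1 hz).2)
  refine le_trans (le_of_eq ?_) h3
  refine (Finset.sum_filter_of_ne fun z hz hne => ?_).symm
  rw [Finset.mem_sdiff, mem_near] at hz
  by_contra h5
  push Not at h5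
  apply hne
  have h6 : M z = 0 := by
    by_contra h7
    exact hz.2 ⟨h7, h5.le⟩
  rw [h6, zero_mul, abs_zero]

/-- zeros off the line: the extreme zeros -/
theorem extreme (hM : Zs M) {b : ℝ} (hb : 1 / 2 ≤ b) {z1 : ℂ} (h1 : M z1 ≠ 0) (h1r : z1.re ≠ 0) :
    ∃ (R : ℝ) (E : Finset ℂ), 1 < R ∧ E.Nonempty ∧ (∀ z, z ∈ E ↔ M z ≠ 0 ∧ ‖W b z‖ = R) ∧
      ∀ z, M z ≠ 0 → ‖W b z‖ ≤ R := by
  classical
  have hb0 : 0 < b := by linarith
  -- WLOG `re < 0`
  obtain ⟨z2, h2, h2r⟩ : ∃ z2, M z2 ≠ 0 ∧ z2.re < 0 := by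
    rcases lt_or_gt_of_ne h1r with h | h
    · exact ⟨z1, h1, h⟩
    · exact ⟨-z1, by rwa [hM.neg], by simpa using h⟩
  set r1 := ‖W b z2‖ with hr1
  have hr1' : 1 < r1 := one_lt_W hb (hM.strip z2 h2) h2r
  set Y : ℝ := |z2.im| + 2 * b / (r1 - 1) + 1 with hY
  have hd : 0 < 2 * b / (r1 - 1) := div_pos (by linarith) (by linarith)
  have hfar : ∀ z, M z ≠ 0 → Y < |z.im| → ‖W b z‖ < r1 := by
    intro z hz hy
    have hne := add_ne' hb (hM.strip z hz)
    rw [W_one_sub hne]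
    have hy0 : 0 < |z.im| := by
      have := abs_nonneg z2.im
      linarith
    have h3 : |z.im| ≤ ‖z + b‖ := by
      have := Complex.abs_im_le_norm (z + b)
      simpa using this
    have h4 : ‖(2 * b / (z + b) : ℂ)‖ ≤ 2 * b / |z.im| := by
      rw [norm_div]
      have e : ‖(2 * b : ℂ)‖ = 2 * b := by
        rw [norm_mul, Complex.norm_real, Real.norm_eq_abs, abs_of_pos hb0]
        norm_num
      rw [e]
      exact div_le_div_of_nonneg_left (by positivity) hy0 h3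
    have h5 : 2 * b / |z.im| < r1 - 1 := by
      rw [div_lt_iff₀ hy0]
      have h6 : 2 * b / (r1 - 1) < |z.im| := by
        have := abs_nonneg z2.im
        linarith
      rw [div_lt_iff₀ (by linarith)] at h6
      linarith
    calc ‖1 - 2 * b / (z + b)‖ ≤ ‖(1 : ℂ)‖ + ‖(2 * b / (z + b) : ℂ)‖ := norm_sub_le _ _
      _ < r1 := by rw [norm_one]; linarith
  have hz2 : z2 ∈ near hM Y := (mem_near hM).2 ⟨h2, by linarith⟩
  obtain ⟨z3, hz3, hmax⟩ := (near hM Y).exists_max_image (fun z => ‖W b z‖) ⟨z2, hz2⟩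
  have hall : ∀ z, M z ≠ 0 → ‖W b z‖ ≤ ‖W b z3‖ := by
    intro z hz
    rcases le_or_gt |z.im| Y with h | h
    · exact hmax z ((mem_near hM).2 ⟨hz, h⟩)
    · exact (hfar z hz h).le.trans (hmax z2 hz2)
  refine ⟨‖W b z3‖, (near hM Y).filter (fun z => ‖W b z‖ = ‖W b z3‖), hr1'.trans_le (hmax z2 hz2),
    ⟨z3, Finset.mem_filter.2 ⟨hz3, rfl⟩⟩, fun z => ?_, hall⟩
  rw [Finset.mem_filter, mem_near]
  constructor
  · rintro ⟨⟨a1, -⟩, a2⟩
    exact ⟨a1, a2⟩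
  · rintro ⟨a1, a2⟩
    refine ⟨⟨a1, ?_⟩, a2⟩
    by_contra h
    push Not at h
    have h3 := hfar z a1 h
    have h4 := hmax z2 hz2
    rw [a2] at h3
    have : r1 ≤ ‖W b z3‖ := h4
    linarith

end

end Pool.Agent.U156.LD
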